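import Pool.Agent.LP.VZ
import Pool.Agent.IST.Ineff

/-!
# Supercompactness in the generic extension

`MainS P κ i l1` is the statement of the main lemma, about the set poset `PP i` of the ground
model.  From it we construct ineffable branches and hence normal fine ultrafilters in the generic
extension.
-/

set_option synthInstance.maxSize 100000

namespace Pool.Agent.IST

open Pool.Agent.BVM

section

variable {M : Type} [SetModel M] {Γ : Type} [IsCtx Γ M]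

/-- `R` is a set of pairs `(y, r)`, `y ∈ a`, `r ∈ PP i`, closed under strengthening `r` -/
def LPo.Opn (P : LPo M) (i a R : M) : Prop :=
  R ⊆ prod a (P.PP i) ∧ ∀ y r r', op y r ∈ R → r' ∈ P.PP i → P.le r' r → op y r' ∈ R

/-- the conclusion of the main lemma: `q` forces that `a` is as required -/
def LPo.Conc (P : LPo M) (i a Ep Em Dp Dm R q : M) : Prop :=
  (∀ ξ ∈ a, ∀ q' ∈ P.PP i, P.le q' q → ∃ q'' ∈ P.PP i, P.le q'' q' ∧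
    ((op ξ q'' ∈ Ep ∧ op (op a ξ) q'' ∈ Dp) ∨ (op ξ q'' ∈ Em ∧ op (op a ξ) q'' ∈ Dm))) ∧
  ∀ n ∈ (om : M), ∀ x ∈ a, ∀ q' ∈ P.PP i, P.le q' q → ∃ q'' ∈ P.PP i, P.le q'' q' ∧
    ∃ v ∈ a, op (op (op n x) v) q'' ∈ R

instance LPo.dfp_Conc {P : LPo M} {i Ep Em Dp Dm R : M} {f g : Γ → M} [Dff f] [Dff g] :
    Dfp fun γ => P.Conc i (f γ) Ep Em Dp Dm R (g γ) := by
  unfold LPo.Conc; infer_instance

/-- the statement of the main lemma -/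
def LPo.MainS (P : LPo M) (κ i l1 : M) : Prop :=
  ∀ p0 ∈ P.PP i, ∀ Dp Dm, P.Opn i (prod (pws κ l1) l1) Dp → P.Opn i (prod (pws κ l1) l1) Dm →
    (∀ y r, op y r ∈ Dp → op y r ∉ Dm) →
    (∀ a ∈ pws κ l1, ∀ ξ ∈ a, ∀ r ∈ P.PP i, P.le r p0 → ∃ r' ∈ P.PP i, P.le r' r ∧
      (op (op a ξ) r' ∈ Dp ∨ op (op a ξ) r' ∈ Dm)) →
    ∃ Ep Em, P.Opn i l1 Ep ∧ P.Opn i l1 Em ∧ (∀ y r, op y r ∈ Ep → op y r ∉ Em) ∧
      ∀ p ∈ P.PP i, P.le p p0 → ∀ R, P.Opn i (prod (prod om l1) l1) R →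
        (∀ u ∈ prod om l1, ∀ r ∈ P.PP i, P.le r p → ∃ r' ∈ P.PP i, P.le r' r ∧
          ∃ v ∈ l1, op (op u v) r' ∈ R) →
        ∃ a ∈ pws κ l1, ∅ ∈ a ∧ a ∩ κ ∈ κ ∧ ∃ q ∈ P.PP i, P.le q p ∧
          P.Conc i a Ep Em Dp Dm R q

namespace Gen

variable {P : LPo M} (G : Gen P)

/-- `G` meets classes of conditions of level `i` which are dense below a member -/
theorem meets_level {i p : M} (hi : IsOrd i) (hp : G.G p) (hpi : p ∈ P.PP i) (D : M → Prop)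
    [hDd : Dfp fun γ : E0 M × M => D γ.2]
    (hD : ∀ r ∈ P.PP i, P.le r p → ∃ r' ∈ P.PP i, P.le r' r ∧ D r') :
    ∃ r ∈ P.PP i, G.G r ∧ P.le r p ∧ D r := by
  have hDd' : ∀ {Δ : Type} [IsCtx Δ M] {f : Δ → M} [Dff f], Dfp fun γ => D (f γ) :=
    fun {_ _ _ _} => Dfp.use1 hDd
  obtain ⟨r, hr, hrp, hDr⟩ := G.meets_below hp (fun r => D (P.rs i r)) (by
    intro r hr
    have hrc := P.left hr
    have hpc := P.right hr
    have h1 : P.rs i p = p := ((P.mem_PP hi).1 hpi).2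
    have h2 : P.le (P.rs i r) p := by
      have := P.rs_mono hi hr
      rwa [h1] at this
    obtain ⟨r', hr', hle, hD'⟩ := hD _ (P.rs_mem hi hrc) h2
    refine ⟨P.gl i r' r, P.gl_le hi hrc hr' hle, ?_⟩
    rw [P.rs_gl hi hrc hr' hle]
    exact hD')
  have hrc := G.cd hr
  have h1 : P.rs i p = p := ((P.mem_PP hi).1 hpi).2
  refine ⟨P.rs i r, P.rs_mem hi hrc, G.rs_mem hi hr, ?_, hDr⟩
  have := P.rs_mono hi hrp
  rwa [h1] at this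

/-- common extensions of level `i` -/
theorem dir_level {i r r' : M} (hi : IsOrd i) (hr : G.G r) (hr' : G.G r') (hri : r ∈ P.PP i)
    (hri' : r' ∈ P.PP i) : ∃ s ∈ P.PP i, G.G s ∧ P.le s r ∧ P.le s r' := by
  obtain ⟨s, hs, h1, h2⟩ := G.dir hr hr'
  refine ⟨P.rs i s, P.rs_mem hi (G.cd hs), G.rs_mem hi hs, ?_, ?_⟩
  · have := P.rs_mono hi h1
    rwa [((P.mem_PP hi).1 hri).2] at this
  · have := P.rs_mono hi h2
    rwa [((P.mem_PP hi).1 hri').2] at this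

/-- a property which fails for all members of `G` fails for all conditions below a member -/
theorem forces_not {i a p0 : M} (hi : IsOrd i) (hp0 : G.G p0) (hpi : p0 ∈ P.PP i)
    (F : M → M → Prop) [hF : Dfp fun γ : (E0 M × M) × M => F γ.1.2 γ.2]
    (h : ∀ u ∈ a, ∀ r ∈ P.PP i, G.G r → ¬ F u r) :
    ∃ p ∈ P.PP i, G.G p ∧ P.le p p0 ∧ ∀ u ∈ a, ∀ r ∈ P.PP i, P.le r p → ¬ F u r := by
  have hF' : ∀ {Δ : Type} [IsCtx Δ M] {f g : Δ → M} [Dff f] [Dff g],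
    Dfp fun γ => F (f γ) (g γ) := fun {_ _ _ _ _ _} => Dfp.use2 hF
  obtain ⟨r, hr, hrG, hrp, hD⟩ := G.meets_level hi hp0 hpi (fun q => (∃ u ∈ a, F u q) ∨
      ∀ u ∈ a, ∀ r ∈ P.PP i, P.le r q → ¬ F u r) (by
    intro r hr _
    by_cases hc : ∀ u ∈ a, ∀ r' ∈ P.PP i, P.le r' r → ¬ F u r'
    · exact ⟨r, hr, P.le_refl ((P.mem_PP hi).1 hr).1, Or.inr hc⟩
    · push Not at hc
      obtain ⟨u, hu, r', hr', hle, hF⟩ := hc
      exact ⟨r', hr', hle, Or.inl ⟨u, hu, hF⟩⟩)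
  rcases hD with ⟨u, hu, hu'⟩ | hD
  · exact absurd hu' (h u hu r hr hrG)
  · exact ⟨r, hr, hrG, hrp, hD⟩

/-- an open property which holds for a member of `G` is dense below a member -/
theorem forces_ex {i a p0 : M} (hi : IsOrd i) (hp0 : G.G p0) (hpi : p0 ∈ P.PP i)
    (F : M → M → Prop) [hF : Dfp fun γ : (E0 M × M) × M => F γ.1.2 γ.2]
    (ho : ∀ u ∈ a, ∀ r r', F u r → r' ∈ P.PP i → P.le r' r → F u r')
    (h : ∀ u ∈ a, ∃ r ∈ P.PP i, G.G r ∧ F u r) :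
    ∃ p ∈ P.PP i, G.G p ∧ P.le p p0 ∧ ∀ u ∈ a, ∀ r ∈ P.PP i, P.le r p →
      ∃ r' ∈ P.PP i, P.le r' r ∧ F u r' := by
  have hF' : ∀ {Δ : Type} [IsCtx Δ M] {f g : Δ → M} [Dff f] [Dff g],
    Dfp fun γ => F (f γ) (g γ) := fun {_ _ _ _ _ _} => Dfp.use2 hF
  obtain ⟨p, h1, h2, h3, h4⟩ := G.forces_not hi hp0 hpi (a := a)
      (fun u r => ∀ r' ∈ P.PP i, P.le r' r → ¬ F u r') (by
    intro u hu r hr hrG hc
    obtain ⟨r0, hr0, hr0G, hF0⟩ := h u hu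
    obtain ⟨s, hs, -, hs1, hs2⟩ := G.dir_level hi hrG hr0G hr hr0
    exact hc s hs hs1 (ho u hu r0 s hF0 hs hs2))
  refine ⟨p, h1, h2, h3, fun u hu r hr hle => ?_⟩
  have := h4 u hu r hr hle
  push Not at this
  exact this

end Gen

/-- the downward closure of a relation -/
noncomputable def LPo.dn (P : LPo M) (i a R : M) : M :=
  sep (prod a (P.PP i)) fun t => ∃ y r r0, t = op y r ∧ op y r0 ∈ R ∧ P.le r r0

theorem LPo.op_mem_dn {P : LPo M} {i a R y r : M} :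
    op y r ∈ P.dn i a R ↔ y ∈ a ∧ r ∈ P.PP i ∧ ∃ r0, op y r0 ∈ R ∧ P.le r r0 := by
  unfold LPo.dn
  rw [mem_sep, op_mem_prod, and_assoc]
  refine and_congr_right fun _ => and_congr_right fun _ => ⟨?_, ?_⟩
  · rintro ⟨y', r', r0, h1, h2, h3⟩
    obtain ⟨rfl, rfl⟩ := op_inj.1 h1
    exact ⟨r0, h2, h3⟩
  · rintro ⟨r0, h2, h3⟩
    exact ⟨y, r, r0, rfl, h2, h3⟩

theorem LPo.opn_dn (P : LPo M) (i a R : M) : P.Opn i a (P.dn i a R) := by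
  refine ⟨fun z hz => (mem_sep.1 hz).1, fun y r r' h hr' hle => ?_⟩
  rw [LPo.op_mem_dn] at h ⊢
  obtain ⟨h1, -, r0, h3, h4⟩ := h
  exact ⟨h1, hr', r0, h3, P.le_trans hle h4⟩

namespace Gen

variable {P : LPo M} (G : Gen P)

theorem dn_iff {i a R y : M} (hi : IsOrd i) (hR : R ⊆ prod a (P.PP i)) :
    (∃ r, G.G r ∧ op y r ∈ R) ↔ ∃ r ∈ P.PP i, G.G r ∧ op y r ∈ P.dn i a R := by
  constructor
  · rintro ⟨r, hr, h⟩
    obtain ⟨h1, h2⟩ := op_mem_prod.1 (hR _ h)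
    exact ⟨r, h2, hr, LPo.op_mem_dn.2 ⟨h1, h2, r, h, P.le_refl ((P.mem_PP hi).1 h2).1⟩⟩
  · rintro ⟨r, -, hr, h⟩
    obtain ⟨-, -, r0, h1, h2⟩ := LPo.op_mem_dn.1 h
    exact ⟨r0, G.up hr h2, h1⟩


section Main

variable [GCh M]

/-- the decision of a property of the elements of `a` below a condition of the filter -/
theorem exists_decM {i a p0 : M} (hi : IsOrd i) (hp0 : G.G p0) (hpi : p0 ∈ P.PP i)
    (hc : card (P.PP i) ∈ P.al i) (ha : card a ∈ P.al i) {x : G.Ext} (hx : x ⊆ G.io a) :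
    ∃ p ∈ P.PP i, G.G p ∧ P.le p p0 ∧ ∃ Dp Dm, P.Opn i a Dp ∧ P.Opn i a Dm ∧
      (∀ y r, op y r ∈ Dp → op y r ∉ Dm) ∧
      (∀ y ∈ a, ∀ r ∈ P.PP i, P.le r p → ∃ r' ∈ P.PP i, P.le r' r ∧
        (op y r' ∈ Dp ∨ op y r' ∈ Dm)) ∧
      (∀ y r, op y r ∈ Dp → G.G r → G.io y ∈ x) ∧
      ∀ y r, op y r ∈ Dm → G.G r → G.io y ∉ x := by
  obtain ⟨R, hR, hR1⟩ := G.subset_level hi hc ha hx
  obtain ⟨R', hR', hR1'⟩ := G.subset_level hi hc ha (x := G.io a \ x)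
    fun z hz => (mem_diff.1 hz).1
  have h1 : ∀ y ∈ a, (G.io y ∈ x ↔ ∃ r ∈ P.PP i, G.G r ∧ op y r ∈ P.dn i a R) := fun y hy => by
    rw [hR1 y hy, G.dn_iff hi hR]
  have h2 : ∀ y ∈ a, (G.io y ∉ x ↔ ∃ r ∈ P.PP i, G.G r ∧ op y r ∈ P.dn i a R') := fun y hy => by
    rw [← G.dn_iff hi hR', ← hR1' y hy, mem_diff, G.temb.mem]
    exact ⟨fun h => ⟨hy, h⟩, fun h => h.2⟩
  obtain ⟨p1, hp1, hp1G, hp1l, hp1n⟩ := G.forces_not hi hp0 hpi (a := a)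
    (fun u r => op u r ∈ P.dn i a R ∧ op u r ∈ P.dn i a R') (by
      rintro u hu r hr hrG ⟨h3, h4⟩
      exact ((h2 u hu).2 ⟨r, hr, hrG, h4⟩) ((h1 u hu).2 ⟨r, hr, hrG, h3⟩))
  obtain ⟨p2, hp2, hp2G, hp2l, hp2n⟩ := G.forces_ex hi hp1G hp1 (a := a)
    (fun u r => op u r ∈ P.dn i a R ∨ op u r ∈ P.dn i a R') (by
      rintro u hu r r' (h3 | h3) hr' hle
      · exact Or.inl ((P.opn_dn i a R).2 u r r' h3 hr' hle)
      · exact Or.inr ((P.opn_dn i a R').2 u r r' h3 hr' hle)) (by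
      intro u hu
      by_cases h3 : G.io u ∈ x
      · obtain ⟨r, hr, hrG, h4⟩ := (h1 u hu).1 h3
        exact ⟨r, hr, hrG, Or.inl h4⟩
      · obtain ⟨r, hr, hrG, h4⟩ := (h2 u hu).1 h3
        exact ⟨r, hr, hrG, Or.inr h4⟩)
  have hsub : ∀ S : M, P.Opn i a S → P.Opn i a (sep S fun t => ∃ y r, t = op y r ∧ P.le r p2) ∧
      ∀ y r, op y r ∈ sep S (fun t => ∃ y r, t = op y r ∧ P.le r p2) ↔
        op y r ∈ S ∧ P.le r p2 := by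
    intro S hS
    have h5 : ∀ y r, op y r ∈ sep S (fun t => ∃ y r, t = op y r ∧ P.le r p2) ↔
        op y r ∈ S ∧ P.le r p2 := by
      intro y r
      rw [mem_sep]
      refine and_congr_right fun _ => ⟨?_, fun h => ⟨y, r, rfl, h⟩⟩
      rintro ⟨y', r', h6, h7⟩
      obtain ⟨rfl, rfl⟩ := op_inj.1 h6
      exact h7
    refine ⟨⟨fun z hz => hS.1 z (mem_sep.1 hz).1, fun y r r' h hr' hle => ?_⟩, h5⟩
    rw [h5] at h ⊢
    exact ⟨hS.2 y r r' h.1 hr' hle, P.le_trans hle h.2⟩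
  obtain ⟨o1, o2⟩ := hsub _ (P.opn_dn i a R)
  obtain ⟨o3, o4⟩ := hsub _ (P.opn_dn i a R')
  refine ⟨p2, hp2, hp2G, P.le_trans hp2l hp1l, _, _, o1, o3, ?_, ?_, ?_, ?_⟩
  · intro y r h3 h4
    rw [o2] at h3
    rw [o4] at h4
    obtain ⟨h5, h6, -⟩ := LPo.op_mem_dn.1 h3.1
    exact hp1n y h5 r h6 (P.le_trans h3.2 hp2l) ⟨h3.1, h4.1⟩
  · intro y hy r hr hle
    obtain ⟨r', hr', hle', h3⟩ := hp2n y hy r hr hle
    refine ⟨r', hr', hle', ?_⟩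
    rw [o2, o4]
    rcases h3 with h3 | h3
    · exact Or.inl ⟨h3, P.le_trans hle' hle⟩
    · exact Or.inr ⟨h3, P.le_trans hle' hle⟩
  · intro y r h3 hr
    rw [o2] at h3
    obtain ⟨h5, h6, -⟩ := LPo.op_mem_dn.1 h3.1
    exact (h1 y h5).2 ⟨r, h6, hr, h3.1⟩
  · intro y r h3 hr
    rw [o4] at h3
    obtain ⟨h5, h6, -⟩ := LPo.op_mem_dn.1 h3.1
    exact (h2 y h5).2 ⟨r, h6, hr, h3.1⟩

/-- a function in the extension between sets of the ground model, below a condition -/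
theorem exists_val {i a b p0 : M} (hi : IsOrd i) (hp0 : G.G p0) (hpi : p0 ∈ P.PP i)
    (hc : card (P.PP i) ∈ P.al i) (ha : card (prod a b) ∈ P.al i) {g : G.Ext}
    (hg : Maps g (G.io a) (G.io b)) :
    ∃ p ∈ P.PP i, G.G p ∧ P.le p p0 ∧ ∃ R, P.Opn i (prod a b) R ∧
      (∀ u ∈ a, ∀ r ∈ P.PP i, P.le r p → ∃ r' ∈ P.PP i, P.le r' r ∧ ∃ v ∈ b, op (op u v) r' ∈ R) ∧
      ∀ u v r, op (op u v) r ∈ R → G.G r → ap g (G.io u) = G.io v := by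
  have hgs : g ⊆ G.io (prod a b) := by
    rw [G.temb.prod]
    exact hg.sub_prod
  obtain ⟨R, hR, hR1⟩ := G.subset_level hi hc ha hgs
  obtain ⟨p1, hp1, hp1G, hp1l, hp1n⟩ := G.forces_ex hi hp0 hpi (a := a)
    (fun u r => ∃ v ∈ b, op (op u v) r ∈ P.dn i (prod a b) R) (by
      rintro u hu r r' ⟨v, hv, h3⟩ hr' hle
      exact ⟨v, hv, (P.opn_dn i _ R).2 _ r r' h3 hr' hle⟩) (by
      intro u hu
      have h1 : ap g (G.io u) ∈ G.io b := hg.ap_mem (G.temb.mem.2 hu)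
      obtain ⟨v, hv, h2⟩ := G.temb.tr h1
      have h3 : G.io (op u v) ∈ g := by
        rw [G.temb.op, hg.isFun.op_mem_iff]
        exact ⟨hg.dom_eq.symm ▸ G.temb.mem.2 hu, h2⟩
      obtain ⟨r, hr, hrG, h4⟩ := (G.dn_iff hi hR).1
        ((hR1 _ (op_mem_prod.2 ⟨hu, hv⟩)).1 h3)
      exact ⟨r, hr, hrG, v, hv, h4⟩)
  refine ⟨p1, hp1, hp1G, hp1l, _, P.opn_dn i _ R, hp1n, fun u v r h hr => ?_⟩
  obtain ⟨h5, h6, -⟩ := LPo.op_mem_dn.1 h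
  have h7 := (hR1 _ h5).2 ((G.dn_iff hi hR).2 ⟨r, h6, hr, h⟩)
  rw [G.temb.op] at h7
  exact hg.isFun.ap_eq h7

theorem io_card_mem {κ a : M} {b : G.Ext} (hκ : IsOrd κ) (ha : card a ∈ κ) (hb : b ⊆ G.io a) :
    card b ∈ G.io κ := by
  have h1 : Leq b (G.io (card a)) := (leq_of_sub hb).trans (G.temb.leq (eqn_card a).leq)
  have h2 : card b ⊆ card (G.io (card a)) := card_sub_iff.2 h1
  have h3 : IsOrd (G.io (card a)) := G.temb.isOrd.2 (isOrd_card a)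
  exact (isOrd_card b).mem_of_sub_of_mem (G.temb.isOrd.2 hκ) (Sub.trans h2 (card_sub_self h3))
    (G.temb.mem.2 ha)

/-- ineffable branches in the extension -/
theorem exists_ineff {κ i lm l1 : M} (hκ : IsOrd κ) (ho : (om : M) ⊆ κ) (hlm : IsOrd lm)
    (hkl : κ ⊆ lm) (hl1 : IsOrd l1) (hll : lm ⊆ l1) (hi : IsOrd i)
    (hc : card (P.PP i) ∈ P.al i) (hc1 : card (prod (pws κ l1) l1) ∈ P.al i)
    (hc2 : card (prod (prod om l1) l1) ∈ P.al i) (hM : P.MainS κ i l1) {e : G.Ext}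
    (he : ∀ ξ ∈ G.io l1, ap e ξ ⊆ pws (G.io κ) (G.io lm))
    (he' : ∀ X, X ⊆ pws (G.io κ) (G.io lm) → ∃ ξ ∈ G.io l1, ap e ξ = X) :
    ∃ S, Ineff (G.io κ) (G.io lm) (G.io l1) e S := by
  have T := G.temb
  let x : G.Ext := sep (G.io (prod (pws κ l1) l1)) fun t =>
    ∃ a ξ, t = op a ξ ∧ a ∩ G.io lm ∈ ap e ξ
  have hx : ∀ a ∈ pws κ l1, ∀ ξ ∈ l1,
      (G.io (op a ξ) ∈ x ↔ G.io a ∩ G.io lm ∈ ap e (G.io ξ)) := by
    intro a ha ξ hξ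
    simp only [x]
    rw [mem_sep, T.mem, op_mem_prod, T.op]
    constructor
    · rintro ⟨-, a', ξ', h1, h2⟩
      obtain ⟨rfl, rfl⟩ := op_inj.1 h1
      exact h2
    · intro h
      exact ⟨⟨ha, hξ⟩, _, _, rfl, h⟩
  obtain ⟨p1, hp1, hp1G, -, Dp, Dm, hDp, hDm, hdis, hden, hDpx, hDmx⟩ :=
    G.exists_decM hi G.one_mem (P.one_mem hi) hc hc1 (x := x) fun z hz => (mem_sep.1 hz).1
  obtain ⟨Ep, Em, hEp, hEm, hEdis, hE⟩ := hM p1 hp1 Dp Dm hDp hDm hdis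
    fun a ha ξ hξ r hr hle => hden _ (op_mem_prod.2 ⟨ha, (mem_pws.1 ha).1 ξ hξ⟩) r hr hle
  obtain ⟨g, hg⟩ := G.exists_filter hi
  let S : G.Ext := sep (G.io l1) fun ξ => ∃ r ∈ g, op ξ r ∈ G.io Ep
  have hS : ∀ ξ ∈ l1, (G.io ξ ∈ S ↔ ∃ r ∈ P.PP i, G.G r ∧ op ξ r ∈ Ep) := by
    intro ξ hξ
    simp only [S]
    rw [mem_sep, T.mem]
    constructor
    · rintro ⟨-, r, hr, h⟩
      obtain ⟨r', hr', hG, rfl⟩ := (hg r).1 hr
      rw [← T.op, T.mem] at h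
      exact ⟨r', hr', hG, h⟩
    · rintro ⟨r, hr, hG, h⟩
      exact ⟨hξ, _, (hg _).2 ⟨r, hr, hG, rfl⟩, by rwa [← T.op, T.mem]⟩
  refine ⟨S, T.isOrd.2 hκ, ?_, T.isOrd.2 hlm, T.sub.2 hkl, T.isOrd.2 hl1, T.sub.2 hll, he, he',
    fun z hz => (mem_sep.1 hz).1, fun h hh => ?_⟩
  · rw [← T.om]
    exact T.sub.2 ho
  have hh' : Maps h (G.io (prod om l1)) (G.io l1) := by
    rw [T.prod, T.om]
    exact hh
  obtain ⟨p2, hp2, hp2G, hp2l, R, hR, hR1, hR2⟩ := G.exists_val hi hp1G hp1 hc hc2 hh'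
  -- a condition of the filter with the conclusion of the main lemma
  have t13 : Dfp fun γ : (E0 M × M) => ∃ a, a ∈ pws κ l1 ∧ ∅ ∈ a ∧ a ∩ κ ∈ κ ∧
    P.Conc i a Ep Em Dp Dm R γ.2 := inferInstance
  obtain ⟨q, hq, hqG, hql, a, ha, ha0, hak, hq1, hq2⟩ := G.meets_level hi hp2G hp2
    (fun q => ∃ a, a ∈ pws κ l1 ∧ ∅ ∈ a ∧ a ∩ κ ∈ κ ∧ P.Conc i a Ep Em Dp Dm R q)
    (hDd := t13) (by
    intro r hr hle
    obtain ⟨a, ha, ha0, hak, q, hq, hqr, h1⟩ := hE r hr (P.le_trans hle hp2l) R hR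
      (fun u hu r' hr' hle' => hR1 u hu r' hr' (P.le_trans hle' hle))
    exact ⟨q, hq, hqr, a, ha, ha0, hak, h1⟩)
  have hal := (mem_pws.1 ha).1
  refine ⟨G.io a, ?_, T.sub.2 hal, mem_pws.2 ⟨fun z hz => (mem_inter.1 hz).2,
    G.io_card_mem hκ (mem_pws.1 ha).2 fun z hz => (mem_inter.1 hz).1⟩, ?_, ?_, ?_⟩
  · rw [← T.empty]
    exact T.mem.2 ha0
  · rw [← T.inter]
    exact T.mem.2 hak
  · intro n hn ξ hξ
    rw [← T.om] at hn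
    obtain ⟨n, hn', rfl⟩ := T.tr hn
    obtain ⟨ξ, hξ', rfl⟩ := T.tr hξ
    obtain ⟨r, hr, hrG, -, v, hv, h1⟩ := G.meets_level hi hqG hq
      (fun q'' => ∃ v ∈ a, op (op (op n ξ) v) q'' ∈ R) (hq2 n hn' ξ hξ')
    have h2 := hR2 _ _ _ h1 hrG
    rw [← T.op, h2]
    exact T.mem.2 hv
  · intro ξ hξ
    obtain ⟨ξ, hξ', rfl⟩ := T.tr hξ
    have hξ1 := hal ξ hξ'
    rw [hS ξ hξ1]
    obtain ⟨r, hr, hrG, -, h1⟩ := G.meets_level hi hqG hq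
      (fun q'' => (op ξ q'' ∈ Ep ∧ op (op a ξ) q'' ∈ Dp) ∨
        (op ξ q'' ∈ Em ∧ op (op a ξ) q'' ∈ Dm)) (hq1 ξ hξ')
    rcases h1 with ⟨h1, h2⟩ | ⟨h1, h2⟩
    · have h3 := (hx a ha ξ hξ1).1 (hDpx _ _ h2 hrG)
      exact ⟨fun _ => h3, fun _ => ⟨r, hr, hrG, h1⟩⟩
    · have h3 : ¬ G.io a ∩ G.io lm ∈ ap e (G.io ξ) := fun h =>
        hDmx _ _ h2 hrG ((hx a ha ξ hξ1).2 h)
      refine ⟨?_, fun h => absurd h h3⟩
      rintro ⟨r', hr', hrG', h4⟩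
      obtain ⟨s, hs, -, hs1, hs2⟩ := G.dir_level hi hrG hrG' hr hr'
      exact absurd (hEm.2 _ _ _ h1 hs hs1) (hEdis _ _ (hEp.2 _ _ _ h4 hs hs2))

omit [GCh M] in
theorem _root_.Pool.Agent.IST.LPo.sub_al (P : LPo M) {j : M} (hj : IsOrd j) : j ⊆ P.al j := by
  refine ord_ind (fun j => j ⊆ P.al j) (fun j hj ih z hz => ?_) j hj
  exact (hj.mem hz).mem_of_sub_of_mem (P.reg_al hj).1.1.1 (ih z hz) (P.al_mem hj hz)

/-- ineffable branches in the extension, for all `lm` -/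
theorem exists_ineff' {κ : M} (hκ : IsOrd κ) (ho : (om : M) ⊆ κ)
    (hM : ∀ l1, IsOrd l1 → κ ⊆ l1 → ∃ j0, IsOrd j0 ∧
      ∀ j, IsOrd j → j0 ⊆ j → P.MainS κ (sc j) l1)
    {lm : G.Ext} (hlm : IsOrd lm) (hkl : G.io κ ⊆ lm) :
    ∃ l1 e S, Ineff (G.io κ) lm l1 e S := by
  classical
  have T := G.temb
  obtain ⟨lm, hlm', rfl⟩ := T.exists_of_ord hlm
  obtain ⟨α, hα, f, hf⟩ := exists_eqn_ord (pw (pws (G.io κ) (G.io lm)))
  have hu : IsOrd (α ∪ G.io lm) := isOrd_union hα hlm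
  obtain ⟨l1, hl1, hl1'⟩ := T.exists_of_ord hu
  have hlm1 : lm ⊆ l1 := by
    rw [← T.sub, ← hl1']
    exact fun z hz => mem_union.2 (Or.inr hz)
  have hkl' : κ ⊆ lm := T.sub.1 hkl
  obtain ⟨j0, hj0, hM'⟩ := hM l1 hl1 (Sub.trans hkl' hlm1)
  have hj : IsOrd (j0 ∪ (card (prod (pws κ l1) l1) ∪ card (prod (prod om l1) l1))) :=
    isOrd_union hj0 (isOrd_union (isOrd_card _) (isOrd_card _))
  have hcard : ∀ c, IsOrd c → c ⊆ j0 ∪ (card (prod (pws κ l1) l1) ∪ card (prod (prod om l1) l1)) →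
      c ∈ P.al (sc (j0 ∪ (card (prod (pws κ l1) l1) ∪ card (prod (prod om l1) l1)))) := by
    intro c hc hcs
    exact hc.mem_of_sub_of_mem (P.reg_al hj.sc).1.1.1 (Sub.trans hcs (P.sub_al hj))
      (P.al_mem hj.sc (self_mem_sc _))
  have hE : Dff fun γ : E0 G.Ext × G.Ext => if γ.2 ∈ α then ap f γ.2 else ∅ := inferInstance
  obtain ⟨S, hS⟩ := G.exists_ineff hκ ho hlm' hkl' hl1 hlm1 hj.sc (P.card_PP hj)
    (hcard _ (isOrd_card _) fun z hz => mem_union.2 (Or.inr (mem_union.2 (Or.inl hz))))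
    (hcard _ (isOrd_card _) fun z hz => mem_union.2 (Or.inr (mem_union.2 (Or.inr hz))))
    (hM' _ hj fun z hz => mem_union.2 (Or.inl hz))
    (e := lam (α ∪ G.io lm) fun ξ => if ξ ∈ α then ap f ξ else ∅) (by
      intro ξ hξ
      rw [← hl1'] at hξ
      rw [ap_lam hξ]
      split_ifs with h1
      · exact mem_pw.1 (hf.maps.ap_mem h1)
      · exact empty_sub _) (by
      intro X hX
      obtain ⟨ξ, hξ, h1⟩ := hf.surj (mem_pw.2 hX)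
      have h2 : ξ ∈ α ∪ G.io lm := mem_union.2 (Or.inl hξ)
      refine ⟨ξ, hl1' ▸ h2, ?_⟩
      rw [ap_lam h2, if_pos hξ, h1])
  exact ⟨_, _, S, hS⟩

end Main

end Gen

/-- `κ` is a cardinal -/
theorem Ineff.isCard {κ lam l1 e S : M} (H : Ineff κ lam l1 e S) : IsCard κ := by
  classical
  refine ⟨H.ordk, fun α hα hE => ?_⟩
  obtain ⟨f, hf⟩ := hE
  have hkl : κ ⊆ l1 := Sub.trans H.kl H.l1l
  have hαl : α ∈ l1 := hkl _ hα
  have h0 : (∅ : M) ∈ l1 := hkl _ (H.omk _ (mem_om.2 isNat_empty))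
  have hF : Dff fun γ : E0 M × M => if γ.2 ∈ α then ap f γ.2 else ∅ := inferInstance
  have hh : Maps (IST.lam l1 fun x => if x ∈ α then ap f x else ∅) l1 l1 := by
    refine maps_lam fun x _ => ?_
    split_ifs with h
    · exact hkl _ (hf.maps.ap_mem h)
    · exact h0
  obtain ⟨a, h1, h2, -, -, -, h3, h4, -⟩ := H.br' hh hαl hαl hαl
  have h5 : IsOrd (a ∩ κ) := H.ordk.mem h3
  have h6 : α ∈ a ∩ κ := mem_inter.2 ⟨h2, hα⟩
  have h7 : κ ⊆ a ∩ κ := by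
    intro z hz
    obtain ⟨x, hx, rfl⟩ := hf.surj hz
    have h8 : x ∈ a := (mem_inter.1 (h5.trans hx h6)).1
    have h9 := h4 x h8
    rw [ap_lam (h1 x h8), if_pos hx] at h9
    exact mem_inter.2 ⟨h9, hz⟩
  exact mem_irrefl _ (h7 _ h3)

/-- `κ` is supercompact in the generic extension -/
theorem Gen.supercompact [GCh M] {P : LPo M} (G : Gen P) {κ : M} (hκ : IsOrd κ)
    (ho : (om : M) ∈ κ) (hM : ∀ l1, IsOrd l1 → κ ⊆ l1 → ∃ j0, IsOrd j0 ∧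
      ∀ j, IsOrd j → j0 ⊆ j → P.MainS κ (sc j) l1) :
    IsCard (G.io κ) ∧ om ∈ G.io κ ∧ ∀ lm : G.Ext, IsOrd lm → G.io κ ⊆ lm →
      ∃ U, Nfu (G.io κ) lm (pws (G.io κ) lm) U := by
  have T := G.temb
  have hk : IsOrd (G.io κ) := T.isOrd.2 hκ
  refine ⟨?_, ?_, fun lm hlm hkl => ?_⟩
  · obtain ⟨l1, e, S, h⟩ := G.exists_ineff' hκ (hκ.sub_of_mem ho) hM hk (Sub.refl _)
    exact h.isCard
  · rw [← T.om]
    exact T.mem.2 ho
  · obtain ⟨l1, e, S, h⟩ := G.exists_ineff' hκ (hκ.sub_of_mem ho) hM hlm hkl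
    exact ⟨_, h.nfu⟩

end

end Pool.Agent.IST
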