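import Pool.Agent.IST.Laver

/-!
# The bits below `κ`, from a Laver function
-/

set_option synthInstance.maxSize 100000

namespace Pool.Agent.IST

open Pool.Agent.BVM CMap Amp

section

variable {M : Type} [SetModel M]

/-- the bits, from a function `l` on `k`: `x` is in the first component of `l g`, for the least `g`
such that `x` is in the second component of `l g` -/
noncomputable def bitsOf (k l : M) : M := sep k fun x => ∃ g ∈ k, g ⊆ x ∧ x ∈ p2 (ap l g) ∧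
  (∀ g' ∈ g, x ∉ p2 (ap l g')) ∧ x ∈ p1 (ap l g)

theorem mem_bitsOf {k l x g : M} (hk : IsOrd k) (hx : x ∈ k) (hg : g ∈ k) (h1 : g ⊆ x)
    (h2 : x ∈ p2 (ap l g)) (h3 : ∀ g' ∈ g, x ∉ p2 (ap l g')) :
    x ∈ bitsOf k l ↔ x ∈ p1 (ap l g) := by
  unfold bitsOf
  rw [mem_sep]
  constructor
  · rintro ⟨-, g', hg', h1', h2', h3', h4'⟩
    rcases (hk.mem hg).cmp (hk.mem hg') with h | rfl | h
    · exact absurd h2 (h3' g h)
    · exact h4'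
    · exact absurd h2' (h3 g' h)
  · intro h
    exact ⟨hx, g, hg, h1, h2, h3, h⟩

theorem p2_sub_Vr {g z x : M} (hz : z ∈ Vr g) (hx : x ∈ p2 z) : x ∈ Vr g := by
  by_cases h : ∃! y, ∃ x, z = op x y
  · obtain ⟨w, hw⟩ := the_spec h
    change z = op w (p2 z) at hw
    rw [hw] at hz
    exact isTrans_Vr g _ (op_right_mem_Vr hz) x hx
  · unfold p2 the at hx
    rw [dif_neg h] at hx
    exact absurd hx (notMem_empty x)

theorem exists_bits {k : M} (h1 : IsCard k) (h2 : om ∈ k)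
    (h3 : ∀ l, IsOrd l → k ⊆ l → ∃ W, Nfu k l (pws k l) W) :
    ∃ B, B ⊆ k ∧ ∀ th i c, IsLim th → i ∈ th → IsOrd i → k ⊆ i → c ⊆ i →
      (∀ x ∈ k, x ∈ c ↔ x ∈ B) → k ∈ th →
      ∃ U, IsAmp k th U ∧ Aa U (pws k (Vr th)) fun s => mc s i ∈ k ∧ mc s c = B ∩ mc s i := by
  obtain ⟨l, hl, hL⟩ := exists_laver h1 h2 h3
  refine ⟨bitsOf k l, fun x hx => (mem_sep.1 hx).1, fun th i c hth hi hio hki hci hcB hk => ?_⟩
  have hiV : i ∈ Vr th := (ord_mem_Vr_iff hio hth.1).2 hi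
  have hcV : c ∈ Vr th := mem_Vr_of_sub hiV hci
  have hdV : c \ k ∈ Vr th := mem_Vr_of_sub hcV fun z hz => (mem_diff.1 hz).1
  have hzV : op (c \ k) i ∈ Vr th := op_mem_Vr hth hdV hiV
  obtain ⟨U, hU, hg⟩ := hL th hth hk _ hzV
  refine ⟨U, hU, ?_⟩
  let A : Amp M := ⟨k, th, U, hU⟩
  have hg' : A.aa fun t => ap l (t ∩ k) = mc t (op (c \ k) i) := hg
  have e1 : A.aa fun s => op (mc s (c \ k)) (mc s i) = mc s (op (c \ k) i) :=
    Lf.ap2 (A := A) (F := fun x y => op x y) hdV hiV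
  have e2 : A.aa fun s => ∀ ξ ∈ s, ξ ∈ k → ap l ξ ∈ s := by
    refine aa_all.2 fun ξ _ => ?_
    by_cases h : ξ ∈ k
    · exact aa_mono (aa_fine (A := A) (Vκ_sub (A := A) _ (hl.ap_mem h))) fun s _ h _ => h
    · exact aa_of_all fun s _ h' => absurd h' h
  have e3 : A.aa fun s => s ∩ k ∈ k := aa_inter_κ
  have e4 : A.aa fun s => s ∩ Vr k = Vr (s ∩ k) := aa_inter_Vκ
  have e5 : A.aa fun s => ∀ x ∈ Vr (s ∩ k), mc s x = x := aa_mc_self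
  have e6 : A.aa fun s => mc s k = s ∩ k := aa_mc_κ
  refine aa_mono (A := A) (aa_and (aa_and (aa_and hg' e1) (aa_and e2 e3)) (aa_and e4 (aa_and e5 e6)))
    fun s hs ⟨⟨⟨a1, a2⟩, a3, a4⟩, a5, a6, a7⟩ => ?_
  have hgo : IsOrd (s ∩ k) := h1.1.mem a4
  have b1 : IsOrd (mc s i) := isOrd_mc hio
  have b2 : mc s i ∈ k := (ord_mem_Vr_iff b1 h1.1).1 (mc_mem_Vκ (A := A) hs)
  have b3 : ap l (s ∩ k) = op (mc s (c \ k)) (mc s i) := a1.trans a2.symm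
  have b4 : ∀ x, x ∈ mc s i → s ∩ k ⊆ x → (x ∈ bitsOf k l ↔ x ∈ mc s (c \ k)) := by
    intro x hx hgx
    have hxk : x ∈ k := h1.1.trans hx b2
    rw [mem_bitsOf h1.1 hxk a4 hgx (by rw [b3, p2_op]; exact hx) ?_, b3, p1_op]
    intro g' hg' hx'
    have c1 : g' ∈ s ∧ g' ∈ k := mem_inter.1 hg'
    have c2 : ap l g' ∈ Vr (s ∩ k) := by
      rw [← a5, mem_inter]
      exact ⟨a3 g' c1.1 c1.2, hl.ap_mem c1.2⟩
    have c3 : x ∈ s ∩ k := (ord_mem_Vr_iff (h1.1.mem hxk) hgo).1 (p2_sub_Vr c2 hx')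
    exact mem_irrefl x (hgx x c3)
  refine ⟨b2, ext fun x => ?_⟩
  rw [mem_inter]
  constructor
  · intro hx
    obtain ⟨y, hy, hyc, rfl⟩ := mem_mc.1 hx
    have c1 : mc s y ∈ mc s i := mc_mem_mc hy (hci y hyc)
    refine ⟨?_, c1⟩
    by_cases hyk : y ∈ k
    · have c2 : y ∈ s ∩ k := mem_inter.2 ⟨hy, hyk⟩
      rw [a6 y ((ord_mem_Vr_iff (h1.1.mem hyk) hgo).2 c2)]
      exact (hcB y hyk).1 hyc
    · have c2 : k ⊆ y := ((hio.mem (hci y hyc)).not_mem h1.1).1 hyk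
      refine (b4 _ c1 ?_).2 (mem_mc.2 ⟨y, hy, mem_diff.2 ⟨hyc, hyk⟩, rfl⟩)
      rw [← a7]
      intro w hw
      obtain ⟨v, hv, hvk, rfl⟩ := mem_mc.1 hw
      exact mem_mc.2 ⟨v, hv, c2 v hvk, rfl⟩
  · rintro ⟨hx, hxi⟩
    have hxk : x ∈ k := h1.1.trans hxi b2
    by_cases hxg : x ∈ s ∩ k
    · exact mem_mc.2 ⟨x, (mem_inter.1 hxg).1, (hcB x hxk).2 hx,
        (a6 x ((ord_mem_Vr_iff (h1.1.mem hxk) hgo).2 hxg)).symm⟩
    · have c2 : s ∩ k ⊆ x := ((h1.1.mem hxk).not_mem hgo).1 hxg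
      obtain ⟨y, hy, hyc, e⟩ := mem_mc.1 ((b4 x hxi c2).1 hx)
      exact mem_mc.2 ⟨y, hy, (mem_diff.1 hyc).1, e⟩

end

end Pool.Agent.IST
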