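import Pool.Agent.LP.Par
import Pool.Agent.IST.GenW

/-!
# The bits of the iteration over a countable model
-/

set_option synthInstance.maxSize 100000

namespace Pool.Agent.IST

open Pool.Agent.BVM

section

variable {M : Type} [SetModel M]

theorem bit1_sc_lim [BitC M] {m : M} (hm : IsLim m) : Bit1 (sc m) ↔ BitC.b m := by
  constructor
  · rintro ⟨l, -, e, h⟩
    rw [sc_inj e]
    exact h
  · intro h
    exact ⟨m, Or.inr hm, rfl, h⟩

/-- the coding property in terms of the bit 1 stages -/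
def CodB (M : Type) [SetModel M] [BitC M] : Prop :=
  ∀ t x l0 : M, IsOrd t → IsOrd l0 → x ⊆ t → ∃ l l' g : M, l0 ∈ l ∧ IsLim l ∧ IsOrd l' ∧
    Maps g t l' ∧ (∀ ξ ∈ t, IsLim (ap g ξ) ∧ l ⊆ ap g ξ) ∧
    (∀ ξ ∈ t, ∀ ζ ∈ ξ, ap g ζ ∈ ap g ξ) ∧
    (∀ m ∈ l', IsLim m → l ⊆ m → ∃ ξ ∈ t, m = ap g ξ) ∧
    ∀ ξ ∈ t, (Bit1 (sc (ap g ξ)) ↔ ξ ∈ x)

theorem codB_of_lcod [BitC M] (h : LCod (BitC.b : M → Prop)) : CodB M := by
  intro t x l0 ht hl hx
  obtain ⟨l, l', g, h1, h2, h3, h4, h5, h6, h7, h8⟩ := h.rel t x l0 ht hl hx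
  refine ⟨l, l', g, h1, h2, h3, h4, h5, h6, h7, fun ξ hξ => ?_⟩
  rw [bit1_sc_lim (h5 ξ hξ).1]
  exact h8 ξ hξ

/-- **over every countable model of ZFC** there are a class and bits with definable choice and the
coding property; the bits below `κ` are given by `B` -/
theorem exists_bitC [Countable M] (κ B : M) :
    ∃ (U' : M → Prop) (hU : ZFCU (SetModel.E : M → M → Prop) U')
      (bc : @BitC M ⟨SetModel.E, U', hU⟩), @GCh M ⟨SetModel.E, U', hU⟩ ∧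
      @CodB M ⟨SetModel.E, U', hU⟩ bc ∧
      ∀ z ∈ κ, (@BitC.b M ⟨SetModel.E, U', hU⟩ bc z ↔ z ∈ B) := by
  obtain ⟨U', hU, h1, b, h2, h3, h4⟩ := exists_bits_class κ B
  refine ⟨U', hU, @BitC.mk M ⟨SetModel.E, U', hU⟩ b h2.out, h1, ?_, h4⟩
  exact @codB_of_lcod M ⟨SetModel.E, U', hU⟩ (@BitC.mk M ⟨SetModel.E, U', hU⟩ b h2.out) h3

end

end Pool.Agent.IST
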