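import Pool.Agent.LP.CndB
import Pool.Agent.IST.Collapse

/-!
# The master condition

`s` is a set such that the collapse with respect to `s` maps `CP i ∩ s` isomorphically onto
`CP (mc s i)` (`Rf4`).  `msC κ i s` is a condition of level `i`, trivial below `κ`; together with a
condition `r'` of level `mc s i` it is below every `r ∈ CP i ∩ s` with `r' ≤ mc s r`.
-/

set_option synthInstance.maxSize 100000

namespace Pool.Agent.IST

open Pool.Agent.BVM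

section

variable {M : Type} [SetModel M] [BitC M] {Γ : Type} [IsCtx Γ M]

/-- the conditions of level `j` which decide all relevant information -/
noncomputable def msA (s i j : M) : M := sep (CP j) fun q => ∀ q' ∈ CP j, cle q' q →
  ∀ r ∈ s, r ∈ CP i → cle (rst (mc s i) q') (mc s r) → cle q' (rst j r)

instance msA.dff {f g h : Γ → M} [Dff f] [Dff g] [Dff h] :
    Dff fun γ => msA (f γ) (g γ) (h γ) := by
  unfold msA; infer_instance

/-- `r` is relevant for the coordinate `x` and the condition `q` -/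
def msR (s i x q r : M) : Prop :=
  r ∈ s ∧ r ∈ CP i ∧ x ∈ dom r ∧ cle (rst (mc s i) q) (mc s r)

instance msR.dfp {f g h k l : Γ → M} [Dff f] [Dff g] [Dff h] [Dff k] [Dff l] :
    Dfp fun γ => msR (f γ) (g γ) (h γ) (k γ) (l γ) := by
  unfold msR; infer_instance

/-- the name at the coordinate `x` -/
noncomputable def msN (s i x : M) : M := sep (prod (CP (p1 x)) (tau (p1 x))) fun w =>
  (p1 w ∈ msA s i (p1 x) ∧ ∃ r, msR s i x (p1 w) r ∧
    ∃ q1, op q1 (p2 w) ∈ ap r x ∧ cle (p1 w) q1) ∨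
  (p2 w = ∅ ∧ ¬ ∃ q' ∈ msA s i (p1 x), cle q' (p1 w) ∧ ∃ r, msR s i x q' r)

instance msN.dff {f g h : Γ → M} [Dff f] [Dff g] [Dff h] :
    Dff fun γ => msN (f γ) (g γ) (h γ) := by
  unfold msN; infer_instance

/-- the support -/
noncomputable def msD (κ i s : M) : M :=
  sep (bigU (img (s ∩ CP i) fun r => dom r)) fun x => p1 x ∉ κ

instance msD.dff {f g h : Γ → M} [Dff f] [Dff g] [Dff h] :
    Dff fun γ => msD (f γ) (g γ) (h γ) := by
  unfold msD; infer_instance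

/-- the master condition -/
noncomputable def msC (κ i s : M) : M := lam (msD κ i s) fun x => msN s i x

instance msC.dff {f g h : Γ → M} [Dff f] [Dff g] [Dff h] :
    Dff fun γ => msC (f γ) (g γ) (h γ) := by
  unfold msC; infer_instance

theorem mem_msD {κ i s x : M} : x ∈ msD κ i s ↔ (∃ r ∈ s, r ∈ CP i ∧ x ∈ dom r) ∧ p1 x ∉ κ := by
  unfold msD
  rw [mem_sep, mem_bigU]
  refine and_congr_left fun _ => ⟨?_, ?_⟩
  · rintro ⟨y, hy, hx⟩
    obtain ⟨r, hr, rfl⟩ := mem_img.1 hy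
    rw [mem_inter] at hr
    exact ⟨r, hr.1, hr.2, hx⟩
  · rintro ⟨r, h1, h2, hx⟩
    exact ⟨dom r, mem_img.2 ⟨r, mem_inter.2 ⟨h1, h2⟩, rfl⟩, hx⟩

/-- reflection -/
structure Rf4 (κ i s : M) : Prop where
  card : InfCard κ
  ord : IsOrd i
  sub : κ ⊆ i
  k0 : mc s i ⊆ κ
  pi : ∀ r ∈ s, r ∈ CP i → mc s r ∈ CP (mc s i)
  onto : ∀ r ∈ CP (mc s i), ∃ r' ∈ s, r' ∈ CP i ∧ r = mc s r'
  le : ∀ r ∈ s, r ∈ CP i → ∀ r' ∈ s, r' ∈ CP i → (cle (mc s r') (mc s r) ↔ cle r' r)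
  low : ∀ r ∈ s, r ∈ CP i → ∀ x ∈ dom r, p1 x ∈ κ → x ∈ dom (mc s r) ∧ ap (mc s r) x = ap r x
  small : IST.card (s ∩ CP i) ∈ κ

theorem msA_open {s i j q q' : M} (h : q ∈ msA s i j) (hq' : q' ∈ CP j)
    (hle : cle q' q) : q' ∈ msA s i j := by
  unfold msA at h ⊢
  rw [mem_sep] at h ⊢
  exact ⟨hq', fun t ht h1 => h.2 t ht (cle_trans h1 hle)⟩

theorem msA_mem {s i j q : M} (h : q ∈ msA s i j) : q ∈ CP j := by
  unfold msA at h
  rw [mem_sep] at h
  exact h.1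

theorem msA_le {s i j q r : M} (hj : IsOrd j) (h : q ∈ msA s i j) (hr : r ∈ s) (hr' : r ∈ CP i)
    (hle : cle (rst (mc s i) q) (mc s r)) : cle q (rst j r) := by
  unfold msA at h
  rw [mem_sep] at h
  exact h.2 q h.1 (cle_refl (cnd_of_mem hj h.1)) r hr hr' hle

theorem op_mem_msN {s i x q v : M} : op q v ∈ msN s i x ↔ q ∈ CP (p1 x) ∧ v ∈ tau (p1 x) ∧
    ((q ∈ msA s i (p1 x) ∧ ∃ r, msR s i x q r ∧ ∃ q1, op q1 v ∈ ap r x ∧ cle q q1) ∨
    (v = ∅ ∧ ¬ ∃ q' ∈ msA s i (p1 x), cle q' q ∧ ∃ r, msR s i x q' r)) := by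
  unfold msN
  rw [mem_sep, op_mem_prod, p1_op, p2_op, and_assoc]

namespace Rf4

variable {κ i s : M} (H : Rf4 κ i s)

include H

theorem ok : IsOrd (mc s i) := isOrd_mc H.ord

theorem k0i : mc s i ⊆ i := Sub.trans H.k0 H.sub

theorem ordx {x : M} (hx : x ∈ msD κ i s) : IsOrd (p1 x) ∧ κ ⊆ p1 x ∧ p1 x ∈ i := by
  obtain ⟨⟨r, -, h2, h3⟩, h4⟩ := mem_msD.1 hx
  obtain ⟨h5, h6⟩ := (mem_CP H.ord).1 h2
  have h7 := h5.isOrd h3
  exact ⟨h7, (h7.not_mem H.card.isOrd).1 h4, h6 x h3⟩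

theorem msN_mem {x : M} (hx : x ∈ msD κ i s) : msN s i x ∈ Nm (p1 x) := by
  obtain ⟨hj, hκ, hji⟩ := H.ordx hx
  have hkj : mc s i ⊆ p1 x := Sub.trans H.k0 hκ
  rw [mem_Nm hj]
  refine ⟨fun w hw => ?_, ?_, ?_⟩
  · unfold msN at hw
    exact (mem_sep.1 hw).1
  · intro q v q' v' t h1 h2 ht hq hq'
    rw [op_mem_msN] at h1 h2
    have ht0 := rst_mem H.ok (cnd_of_mem hj ht)
    have key : ∀ q v, (q ∈ msA s i (p1 x) ∧ ∃ r, msR s i x q r ∧ ∃ q1, op q1 v ∈ ap r x ∧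
        cle q q1) → cle t q → t ∈ msA s i (p1 x) ∧ ∃ r, msR s i x t r ∧ ∃ q1, op q1 v ∈ ap r x ∧
        cle t q1 := by
      rintro q v ⟨h3, r, ⟨h4, h5, h6, h7⟩, q1, h8, h9⟩ h10
      exact ⟨msA_open h3 ht h10, r, ⟨h4, h5, h6, cle_trans (rst_mono H.ok h10) h7⟩, q1, h8,
        cle_trans h10 h9⟩
    rcases h1.2.2 with a1 | a1 <;> rcases h2.2.2 with a2 | a2
    · obtain ⟨b1, r, ⟨b2, b3, b4, b5⟩, q1, b6, b7⟩ := key q v a1 hq
      obtain ⟨-, r', ⟨c2, c3, c4, c5⟩, q1', c6, c7⟩ := key q' v' a2 hq'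
      obtain ⟨r'', d1, d2, d3⟩ := H.onto _ ht0
      rw [d3] at b5 c5
      have e1 := (H.le r b2 b3 r'' d1 d2).1 b5
      have e2 := (H.le r' c2 c3 r'' d1 d2).1 c5
      have e3 : cle t (rst (p1 x) r'') := msA_le hj b1 d1 d2 (by
        rw [d3]; exact cle_refl (cnd_of_mem H.ok (H.pi r'' d1 d2)))
      have er := rst_mem hj e1.1
      have e4 := e1.2.2.2 x b4
      have e5 := e2.2.2.2 x c4
      have e6 : x ∈ dom r'' := e1.2.2.1 x b4
      have e7 : FE (p1 x) (rst (p1 x) r'') (ap r x) (ap r' x) :=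
        FE_trans hj er (e1.1.nm e6) (FE_symm e4) e5
      obtain ⟨t', g1, g2, w, u, u', g3, g4, -, -, g5, g6⟩ := (FE_iff hj er).1 e7 t ht e3
      have v1 := nm_coh hj (e1.2.1.nm b4) b6 g3 g1 (cle_trans g2 b7) g5
      have v2 := nm_coh hj (e2.2.1.nm c4) c6 g4 g1 (cle_trans g2 c7) g6
      rw [v1, v2]
    · obtain ⟨b1, r, b2, -⟩ := key q v a1 hq
      exact absurd ⟨t, b1, hq', r, b2⟩ a2.2
    · obtain ⟨b1, r, b2, -⟩ := key q' v' a2 hq'
      exact absurd ⟨t, b1, hq, r, b2⟩ a1.2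
    · rw [a1.1, a2.1]
  · intro q hq
    by_cases h1 : ∃ q' ∈ msA s i (p1 x), cle q' q ∧ ∃ r, msR s i x q' r
    · obtain ⟨q', h2, h3, r, h4, h5, h6, h7⟩ := h1
      obtain ⟨q'', h8, h9, q1, v, h10, h11⟩ :=
        nm_tot hj ((cnd_of_mem H.ord h5).nm h6) (msA_mem h2)
      refine ⟨q'', h8, cle_trans h9 h3, q'', v, ?_, cle_refl (cnd_of_mem hj h8)⟩
      rw [op_mem_msN]
      refine ⟨h8, (nm_cond ((cnd_of_mem H.ord h5).nm h6) h10).2, Or.inl ⟨msA_open h2 h8 h9, r,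
        ⟨h4, h5, h6, cle_trans (rst_mono H.ok h9) h7⟩, q1, h10, h11⟩⟩
    · refine ⟨q, hq, cle_refl (cnd_of_mem hj hq), q, ∅, ?_, cle_refl (cnd_of_mem hj hq)⟩
      rw [op_mem_msN]
      exact ⟨hq, empty_mem_of_isLim (infCard_tau hj).isLim, Or.inr ⟨rfl, h1⟩⟩

theorem κ_mem {j : M} (hj : IsOrd j) (h : κ ⊆ j) : κ ∈ alp j := by
  have h1 : κ ∈ alp κ := by
    rw [alp_lim (Or.inr H.card.isLim)]
    have h2 := infCard_dlt H.card.isOrd
    exact H.card.isOrd.mem_of_sub_of_mem (infCard_scard h2).isOrd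
      (self_sub_dlt (Or.inr H.card.isLim)) (mem_scard_self h2.isOrd)
  exact alp_sub_alp H.card.isOrd hj h _ h1

theorem cnd : Cnd (msC κ i s) := by
  refine ⟨isFun_lam, fun x hx => ?_, fun d hd hom => ?_⟩
  · unfold msC at hx ⊢
    rw [dom_lam] at hx
    rw [ap_lam hx]
    refine ⟨?_, H.msN_mem hx⟩
    obtain ⟨⟨r, -, h2, h3⟩, -⟩ := mem_msD.1 hx
    exact ((cnd_of_mem H.ord h2).2.1 x h3).1
  · have hdm : dom (msC κ i s) = msD κ i s := dom_lam
    rw [hdm]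
    by_cases h1 : κ ∈ d
    · have h2 : sep (msD κ i s) (fun x => alp (p1 x) ⊆ d) ⊆
          iU (s ∩ CP i) fun r => sep (dom r) fun x => alp (p1 x) ⊆ d := by
        intro x hx
        obtain ⟨h3, h4⟩ := mem_sep.1 hx
        obtain ⟨⟨r, h5, h6, h7⟩, -⟩ := mem_msD.1 h3
        exact mem_iU.2 ⟨r, mem_inter.2 ⟨h5, h6⟩, mem_sep.2 ⟨h7, h4⟩⟩
      refine (isOrd_card _).mem_of_sub_of_mem hd.isOrd (card_mono h2) ?_
      refine hd.card_iU _ (hd.isOrd.trans H.small h1) fun r hr => ?_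
      exact (cnd_of_mem H.ord (mem_inter.1 hr).2).2.2 d hd hom
    · have h2 : sep (msD κ i s) (fun x => alp (p1 x) ⊆ d) = ∅ := by
        rw [eq_empty_iff]
        intro x hx
        obtain ⟨h3, h4⟩ := mem_sep.1 hx
        obtain ⟨h5, h6, -⟩ := H.ordx h3
        exact h1 (h4 κ (H.κ_mem h5 h6))
      rw [h2, isCard_empty.card_eq]
      exact empty_mem_of_isLim hd.infCard.isLim

theorem mem : msC κ i s ∈ CP i := by
  refine (mem_CP H.ord).2 ⟨H.cnd, fun x hx => ?_⟩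
  unfold msC at hx
  rw [dom_lam] at hx
  exact (H.ordx hx).2.2

theorem rst_ms : rst (mc s i) (msC κ i s) = ∅ := by
  rw [eq_empty_iff]
  intro w hw
  obtain ⟨x, hx, rfl⟩ := (isFun_rst H.cnd.1).mem_iff.1 hw
  rw [mem_dom_rst] at hx
  have h1 : x ∈ msD κ i s := by
    have := hx.1
    unfold msC at this
    rwa [dom_lam] at this
  exact (mem_msD.1 h1).2 (H.k0 _ hx.2)

/-- the property of master conditions -/
theorem mcond {j q r : M} (hj : IsOrd j) (hκj : κ ⊆ j) (hji : j ⊆ i) (hq : q ∈ CP j)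
    (hle : cle q (rst j (msC κ i s))) (hr : r ∈ s) (hr' : r ∈ CP i)
    (h : cle (rst (mc s i) q) (mc s r)) : cle q (rst j r) := by
  have key : ∀ j : M, IsOrd j → κ ⊆ j → j ⊆ i → ∀ q ∈ CP j, cle q (rst j (msC κ i s)) →
      ∀ r ∈ s, r ∈ CP i → cle (rst (mc s i) q) (mc s r) → cle q (rst j r) := by
    refine ord_ind (fun j => κ ⊆ j → j ⊆ i → ∀ q ∈ CP j, cle q (rst j (msC κ i s)) →
      ∀ r ∈ s, r ∈ CP i → cle (rst (mc s i) q) (mc s r) → cle q (rst j r)) ?_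
    intro j hj ih hκj hji q hq hle r hr hr' h
    have hrc := cnd_of_mem H.ord hr'
    have hqc := cnd_of_mem hj hq
    have main : ∀ x ∈ dom (rst j r), x ∈ dom q ∧ FE (p1 x) (rst (p1 x) q) (ap q x)
        (ap (rst j r) x) := by
      intro x hx
      obtain ⟨hx1, hx2⟩ := mem_dom_rst.1 hx
      have hxo := hrc.isOrd hx1
      rw [ap_rst hrc.1 hx2]
      by_cases h1 : p1 x ∈ κ
      · obtain ⟨h2, h3⟩ := H.low r hr hr' x hx1 h1
        obtain ⟨h4, h5⟩ := mem_dom_rst.1 (h.2.2.1 x h2)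
        have h6 := h.2.2.2 x h2
        rw [rst_rst (H.ok.sub_of_mem h5), ap_rst hqc.1 h5, h3] at h6
        exact ⟨h4, h6⟩
      · have hκx : κ ⊆ p1 x := (hxo.not_mem H.card.isOrd).1 h1
        have hm : x ∈ msD κ i s := mem_msD.2 ⟨⟨r, hr, hr', hx1⟩, h1⟩
        have hm' : x ∈ dom (msC κ i s) := by unfold msC; rwa [dom_lam]
        have hm2 : x ∈ dom (rst j (msC κ i s)) := mem_dom_rst.2 ⟨hm', hx2⟩
        have h2 := hle.2.2.1 x hm2
        have h3 := hle.2.2.2 x hm2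
        rw [ap_rst H.cnd.1 hx2] at h3
        have hmx : ap (msC κ i s) x = msN s i x := by unfold msC; rw [ap_lam hm]
        rw [hmx] at h3
        refine ⟨h2, FE_trans hxo (rst_mem hxo hqc) (H.msN_mem hm) h3 ?_⟩
        have hxi : p1 x ⊆ i := H.ord.sub_of_mem (H.ordx hm).2.2
        have hkx : mc s i ⊆ p1 x := Sub.trans H.k0 hκx
        have hqx := rst_mem hxo hqc
        have hlx : cle (rst (p1 x) q) (rst (p1 x) (msC κ i s)) := by
          have := rst_mono hxo hle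
          rwa [rst_rst (hj.sub_of_mem hx2)] at this
        have hA : rst (p1 x) q ∈ msA s i (p1 x) := by
          unfold msA
          rw [mem_sep]
          refine ⟨hqx, fun q' hq' h4 r1 hr1 hr1' h5 => ?_⟩
          exact ih _ hx2 hκx hxi q' hq' (cle_trans h4 hlx) r1 hr1 hr1' h5
        rw [FE_iff hxo hqx]
        intro t ht htq
        obtain ⟨t', h4, h5, q1, v, h6, h7⟩ := nm_tot hxo (hrc.nm hx1) ht
        have h8 : cle t' (rst (p1 x) q) := cle_trans h5 htq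
        refine ⟨t', h4, h5, v, t', q1, ?_, h6, h4, (nm_cond (hrc.nm hx1) h6).1,
          cle_refl (cnd_of_mem hxo h4), h7⟩
        rw [op_mem_msN]
        refine ⟨h4, (nm_cond (hrc.nm hx1) h6).2, Or.inl ⟨msA_open hA h4 h8, r,
          ⟨hr, hr', hx1, ?_⟩, q1, h6, h7⟩⟩
        have h9 := rst_mono H.ok h8
        rw [rst_rst hkx] at h9
        exact cle_trans h9 h
    exact ⟨hqc, cnd_rst hrc, fun x hx => (main x hx).1, fun x hx => (main x hx).2⟩
  exact key j hj hκj hji q hq hle r hr hr' h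

theorem glu_le_of {r : M} (hr : r ∈ s) (hr' : r ∈ CP i) :
    cle (glu (mc s i) (mc s r) (msC κ i s)) r := by
  have h1 := H.pi r hr hr'
  have hc := cnd_of_mem H.ok h1
  have h2 : cle (mc s r) (rst (mc s i) (msC κ i s)) := by
    rw [H.rst_ms]
    exact cle_empty hc
  have h3 := glu_mem H.ok h1 H.cnd H.ord H.k0i H.mem
  have h4 := glu_le H.ok h1 H.cnd h2
  have h5 := H.mcond H.ord H.sub (Sub.refl i) h3 (by rwa [rst_eq_self H.ord H.mem]) hr hr'
    (by rw [rst_glu H.ok h1 H.cnd]; exact cle_refl hc)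
  rwa [rst_eq_self H.ord hr'] at h5

end Rf4

end

end Pool.Agent.IST
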