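import Pool.Agent.SC.MainL
import Pool.Agent.SC.Master
import Pool.Agent.SC.Asm
import Pool.Agent.IST.AmpP
import Pool.Agent.LP.Inst

/-!
# The main lemma in terms of relations, supercompactness of `κ` in the extension

`H64 κ` is the reflection of the iteration: for all large successor levels `i` there is a normal
ultrafilter on `P_κ(V_η)` such that almost all `s` reflect the level `i`.
-/

set_option synthInstance.maxSize 100000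

namespace Pool.Agent.IST

open Pool.Agent.BVM Amp

namespace Rfl

variable {M : Type} [SetModel M] [GCh M] {P : LPo M} {A : Amp M} {i l1 : M} {ms : M → M}

theorem mainS (H : Rfl P A i ms) (l1η : l1 ⊆ Vr A.η) (kl : A.κ ⊆ l1)
    (hc : A.aa fun s => card (s ∩ l1) ∈ P.al (mc s i)) : P.MainS A.κ i l1 := by
  intro p0 hp0 Dp Dm hDp hDm hdis hden
  have hi := H.ordi
  have cd : ∀ {r}, r ∈ P.PP i → P.Cd r := fun hr => ((P.mem_PP hi).1 hr).1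
  have hop : ∀ D, P.Opn i (prod (pws A.κ l1) l1) D → ∀ a ξ r r',
      (P.Cd r ∧ ∃ r1, op (op a ξ) r1 ∈ D ∧ P.le r r1) → P.le r' r →
      (P.Cd r' ∧ ∃ r1, op (op a ξ) r1 ∈ D ∧ P.le r' r1) := by
    rintro D - a ξ r r' ⟨-, r1, h1, h2⟩ h3
    exact ⟨P.left h3, r1, h1, P.le_trans h3 h2⟩
  have hrs : ∀ D, P.Opn i (prod (pws A.κ l1) l1) D → ∀ a ξ r,
      (P.Cd r ∧ ∃ r1, op (op a ξ) r1 ∈ D ∧ P.le r r1) → op (op a ξ) (P.rs i r) ∈ D := by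
    rintro D hD a ξ r ⟨h0, r1, h1, h2⟩
    have h3 := (op_mem_prod.1 (hD.1 _ h1)).2
    have h4 := P.rs_mono hi h2
    rw [((P.mem_PP hi).1 h3).2] at h4
    exact hD.2 _ _ _ h1 (P.rs_mem hi h0) h4
  obtain ⟨Ep, En, hEp, hEn, oEp, oEn, hE, hED, hfin⟩ := H.main (Z := pws A.κ l1) hp0 l1η kl
    (fun s hs => by
      rw [mem_D] at hs
      exact inter_mem_pws A.ord_κ (mem_pws.2 hs)) hc
    (Dp := fun r a ξ => P.Cd r ∧ ∃ r1, op (op a ξ) r1 ∈ Dp ∧ P.le r r1)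
    (Dn := fun r a ξ => P.Cd r ∧ ∃ r1, op (op a ξ) r1 ∈ Dm ∧ P.le r r1)
    inferInstance inferInstance (hop Dp hDp) (hop Dm hDm)
    (fun a ξ r h1 h2 => hdis _ _ (hrs Dp hDp a ξ r h1) (hrs Dm hDm a ξ r h2))
    (fun a ha ξ hξ r hr hle => by
      obtain ⟨r', hr', h1, h2⟩ := hden a ha ξ hξ r hr hle
      exact ⟨r', hr', h1, h2.imp (fun h => ⟨cd hr', r', h, P.le_refl (cd hr')⟩)
        fun h => ⟨cd hr', r', h, P.le_refl (cd hr')⟩⟩)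
  have hflip : ∀ E : M, (∀ t, t ∈ E → ∃ r ∈ P.PP i, ∃ ξ ∈ l1, t = op r ξ ∧ P.le r p0) →
      ∀ ξ r, op ξ r ∈ sep (prod l1 (P.PP i)) (fun t => op (p2 t) (p1 t) ∈ E) ↔ op r ξ ∈ E := by
    intro E hE ξ r
    rw [mem_sep, op_mem_prod, p1_op, p2_op]
    refine ⟨fun h => h.2, fun h => ⟨?_, h⟩⟩
    obtain ⟨r', h1, ξ', h2, h3, -⟩ := hE _ h
    obtain ⟨rfl, rfl⟩ := op_inj.1 h3
    exact ⟨h2, h1⟩
  have hopn : ∀ E : M, (∀ t, t ∈ E → ∃ r ∈ P.PP i, ∃ ξ ∈ l1, t = op r ξ ∧ P.le r p0) →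
      (∀ r r' ξ, op r ξ ∈ E → r' ∈ P.PP i → P.le r' r → op r' ξ ∈ E) →
      P.Opn i l1 (sep (prod l1 (P.PP i)) (fun t => op (p2 t) (p1 t) ∈ E)) := by
    intro E h1 h2
    refine ⟨fun z hz => (mem_sep.1 hz).1, fun y r r' h3 h4 h5 => ?_⟩
    rw [hflip E h1] at h3 ⊢
    exact h2 _ _ _ h3 h4 h5
  refine ⟨_, _, hopn Ep hEp oEp, hopn En hEn oEn, fun y r h1 h2 => ?_, ?_⟩
  · rw [hflip Ep hEp] at h1
    rw [hflip En hEn] at h2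
    exact hE _ _ h1 h2
  intro p hp hpp R hR hRd
  have h0 : ∅ ∈ l1 := kl _ (A.ord_κ.trans (mem_om.2 isNat_empty) A.om_mem)
  obtain ⟨a, ha, h1, h2, h3, q, hq, hqp, h4, h5⟩ := hfin
    (fun r u v => op (op u v) r ∈ R ∨ (v = ∅ ∧ ¬ ∃ t, P.le t r ∧ P.le t p)) inferInstance
    (fun n hn ξ hξ r hr hle => by
      by_cases hcmp : ∃ t, P.le t r ∧ P.le t p
      · obtain ⟨t, ht1, ht2⟩ := hcmp
        have g1 := P.rs_mono hi ht1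
        have g2 := P.rs_mono hi ht2
        rw [((P.mem_PP hi).1 hr).2] at g1
        rw [((P.mem_PP hi).1 hp).2] at g2
        obtain ⟨r', hr', g3, v, hv, g4⟩ := hRd (op n ξ) (op_mem_prod.2 ⟨hn, hξ⟩) _
          (P.rs_mem hi (P.left ht1)) g2
        exact ⟨r', hr', P.le_trans g3 g1, v, hv, Or.inl g4⟩
      · exact ⟨r, hr, P.le_refl (cd hr), ∅, h0, Or.inr ⟨rfl, hcmp⟩⟩) p hp hpp
  refine ⟨a, ha, h1 _ (mem_om.2 isNat_empty), h3, q, hq, hqp, fun ξ hξ q' hq' hle => ?_,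
    fun n hn ξ hξ q' hq' hle => ?_⟩
  · obtain ⟨q'', hq'', g1, g2⟩ := h4 ξ hξ q' hq' hle
    refine ⟨q'', hq'', g1, ?_⟩
    rw [hflip Ep hEp, hflip En hEn]
    rcases g2 with ⟨r, g3, g4, -, r1, g5, g6⟩ | ⟨r, g3, g4, -, r1, g5, g6⟩
    · exact Or.inl ⟨oEp _ _ _ g3 hq'' g4, hDp.2 _ _ _ g5 hq'' g6⟩
    · exact Or.inr ⟨oEn _ _ _ g3 hq'' g4, hDm.2 _ _ _ g5 hq'' g6⟩
  · obtain ⟨q'', hq'', g1, r, hr, g2, v, hv, g3 | g3⟩ := h5 n hn ξ hξ q' hq' hle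
    · exact ⟨q'', hq'', g1, v, hv, hR.2 _ _ _ g3 hq'' g2⟩
    · exact absurd ⟨q'', g2, P.le_trans g1 (P.le_trans hle hqp)⟩ g3.2

end Rfl

section

variable {M : Type} [SetModel M] [BitC M] {Γ : Type} [IsCtx Γ M]

theorem rf4_iff {κ i s : M} : Rf4 κ i s ↔ ((InfCard κ ∧ IsOrd i) ∧ (κ ⊆ i ∧ mc s i ⊆ κ)) ∧
    ((∀ r ∈ s, r ∈ CP i → mc s r ∈ CP (mc s i)) ∧
    (∀ r ∈ CP (mc s i), ∃ r' ∈ s, r' ∈ CP i ∧ r = mc s r') ∧
    (∀ r ∈ s, r ∈ CP i → ∀ r' ∈ s, r' ∈ CP i → (cle (mc s r') (mc s r) ↔ cle r' r))) ∧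
    (∀ r ∈ s, r ∈ CP i → ∀ x ∈ dom r, p1 x ∈ κ → x ∈ dom (mc s r) ∧ ap (mc s r) x = ap r x) ∧
    IST.card (s ∩ CP i) ∈ κ :=
  ⟨fun h => ⟨⟨⟨h.card, h.ord⟩, h.sub, h.k0⟩, ⟨h.pi, h.onto, h.le⟩, h.low, h.small⟩,
    fun h => ⟨h.1.1.1, h.1.1.2, h.1.2.1, h.1.2.2, h.2.1.1, h.2.1.2.1, h.2.1.2.2, h.2.2.1,
      h.2.2.2⟩⟩

instance Rf4.dfp {f g h : Γ → M} [Dff f] [Dff g] [Dff h] :
    Dfp fun γ => Rf4 (f γ) (g γ) (h γ) := by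
  simp only [rf4_iff]; infer_instance

/-- the reflection of the iteration -/
def H64 (κ : M) : Prop := ∀ l1, IsOrd l1 → κ ⊆ l1 → ∃ j0, IsOrd j0 ∧ ∀ j, IsOrd j → j0 ⊆ j →
  ∃ A : Amp M, A.κ = κ ∧ sc j ∈ Vr A.η ∧ CP (sc j) ∈ Vr A.η ∧ l1 ⊆ Vr A.η ∧
    A.aa fun s => Rf4 κ (sc j) s ∧ card (s ∩ l1) ∈ alp (mc s (sc j))

theorem H64.mainS [GCh M] {κ : M} (h : H64 κ) : ∀ l1, IsOrd l1 → κ ⊆ l1 →
    ∃ j0, IsOrd j0 ∧ ∀ j, IsOrd j → j0 ⊆ j → (IT M).MainS κ (sc j) l1 := by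
  intro l1 hl1 hkl
  obtain ⟨j0, hj0, h1⟩ := h l1 hl1 hkl
  refine ⟨j0, hj0, fun j hj hjj => ?_⟩
  obtain ⟨A, rfl, h0, h2, h3, h4⟩ := h1 j hj hjj
  have H : Rfl (IT M) A (sc j) (fun s => msC A.κ (sc j) s) := by
    refine ⟨hj.sc, h2, A.ord_κ, A.om_mem, κ_sub_Vr, inferInstance, aa_inter_κ, ?_⟩
    have hd : Dfp fun γ : E0 M × M =>
        (IT M).Rfs (sc j) (fun s => msC A.κ (sc j) s) γ.2 := LPo.Rfs.dfp _ inferInstance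
    have hjη : j ∈ Vr A.η := A.trans_Z (self_mem_sc j) h0
    have h7 : A.aa fun s => sc (mc s j) = mc s (sc j) :=
      (inferInstance : Lf A fun γ : E0 M × M => sc γ.2).out (⟨⟩, j) ⟨trivial, hjη⟩
    refine aa_mono (aa_and h4 h7) fun s _ h5 => ?_
    obtain ⟨⟨h5, -⟩, h6⟩ := h5
    have h8 : card (CP (mc s (sc j))) ∈ alp (mc s (sc j)) := by
      rw [← h6]
      exact card_CP_sc (isOrd_mc hj)
    exact ⟨⟨h5.k0i, h8, h5.onto⟩, h5.pi, h5.le, ⟨h5.mem, h5.rst_ms⟩,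
      fun r hr hr' => h5.glu_le_of hr hr'⟩
  exact H.mainS h3 hkl (aa_mono h4 fun s _ h5 => h5.2)

/-- `κ` is supercompact in the extension by the iteration -/
theorem H64.supercompact [GCh M] {κ : M} (h : H64 κ) (hκ : IsOrd κ) (ho : (om : M) ∈ κ)
    (G : Gen (IT M)) : IsCard (G.io κ) ∧ om ∈ G.io κ ∧ ∀ lm : G.Ext, IsOrd lm → G.io κ ⊆ lm →
      ∃ U, Nfu (G.io κ) lm (pws (G.io κ) lm) U := G.supercompact hκ ho h.mainS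

end

end Pool.Agent.IST
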