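import Pool.Agent.SC.ReflA
import Pool.Agent.LP.BitL
import Pool.Agent.IST.AmpP

/-!
# The iteration and the collapses: closed levels, reflection of the iteration
-/

set_option synthInstance.maxSize 100000

namespace Pool.Agent.IST

open Pool.Agent.BVM CMap Amp

section

variable {M : Type} [SetModel M]

/-- combination of the functions under which `V_η` has to be closed -/
noncomputable def clF (z : M) : M :=
  op (card z) (op (lam (p1 (p2 z)) fun y => @alp M _ (BitC.ofSet (p1 z)) y)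
    (op (img (p1 (p2 z)) fun i => prod (sing i) (@DD M _ (BitC.ofSet (p1 z)) i))
      (op (img (p1 (p2 z)) fun i => @NmF M _ (BitC.ofSet (p1 z)) (p2 (p2 z)) i)
        (lam (p1 (p2 z)) fun y => @RR M _ (BitC.ofSet (p1 z)) y))))

instance clF.dff {Γ : Type} [IsCtx Γ M] {f : Γ → M} [Dff f] : Dff fun γ => clF (f γ) := by
  unfold clF; infer_instance

/-- there are arbitrarily large `η` such that `V_η` is closed under the recursions -/
theorem exists_clIt {β : M} (hβ : IsOrd β) :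
    ∃ η : M, IsLim η ∧ β ∈ η ∧ ∀ A : Amp M, A.η = η → ClIt A := by
  obtain ⟨η, h1, h2, h3⟩ := exists_closed1 (fun z => clF z) hβ
  refine ⟨η, h1, h2, ?_⟩
  rintro A rfl
  have k1 : ∀ z ∈ Vr A.η, clF z ∈ Vr A.η := h3
  have k2 : ∀ c ∈ Vr A.η, ∀ x ∈ Vr A.η, ∀ f ∈ Vr A.η, clF (op c (op x f)) ∈ Vr A.η :=
    fun c hc x hx f hf => h3 _ (op_mem_Vr h1 hc (op_mem_Vr h1 hx hf))
  have k3 : ∀ c x f : M, clF (op c (op x f)) =
      op (card (op c (op x f))) (op (lam x fun y => @alp M _ (BitC.ofSet c) y)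
    (op (img x fun i => prod (sing i) (@DD M _ (BitC.ofSet c) i))
      (op (img x fun i => @NmF M _ (BitC.ofSet c) f i)
        (lam x fun y => @RR M _ (BitC.ofSet c) y)))) := by
    intro c x f
    have e1 : p1 (op c (op x f)) = c := p1_op _ _
    have e2 : p2 (op c (op x f)) = op x f := p2_op _ _
    unfold clF
    rw [e1, e2, p1_op, p2_op]
  simp only [k3] at k2
  refine @ClIt.mk M _ A ⟨fun a ha => ?_⟩ (fun c hc x hx => ?_) (fun c hc x hx => ?_)
    (fun c hc x hx f hf => ?_) (fun c hc x hx => ?_)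
  · have := k1 a ha
    unfold clF at this
    exact op_left_mem_Vr this
  · exact op_left_mem_Vr (op_right_mem_Vr (k2 c hc x hx x hx))
  · exact op_left_mem_Vr (op_right_mem_Vr (op_right_mem_Vr (k2 c hc x hx x hx)))
  · exact op_left_mem_Vr (op_right_mem_Vr (op_right_mem_Vr (op_right_mem_Vr (k2 c hc x hx f hf))))
  · exact op_right_mem_Vr (op_right_mem_Vr (op_right_mem_Vr (op_right_mem_Vr (k2 c hc x hx x hx))))

/-- the value of an `Lf` function is in `V_η` -/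
theorem Lf.mem2 {A : Amp M} {F : M → M → M}
    [h : Lf A fun γ : (E0 M × M) × M => F γ.1.2 γ.2]
    {x y : M} (hx : x ∈ Vr A.η) (hy : y ∈ Vr A.η) : F x y ∈ Vr A.η :=
  h.mem ((⟨⟩, x), y) ⟨⟨trivial, hx⟩, hy⟩

theorem dfp_prop {Γ : Type} [IsCtx Γ M] (p : Prop) : Dfp fun _ : Γ => p := by
  by_cases h : p
  · exact Dfp.congr (P := fun _ : Γ => True) fun _ => by simp [h]
  · exact Dfp.congr (P := fun _ : Γ => False) fun _ => by simp [h]

/-- almost all `s` reflect a predicate satisfying the theorem of Łoś -/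
theorem Lp.aa_iff {A : Amp M} {Γ : Type} [IsCtx Γ M] [CMap Γ] {P : Γ → Prop} [Dfp P] [h : Lp A P]
    {γ : Γ} (hγ : inZ (Vr A.η) γ) : A.aa fun s => (P γ ↔ P (cmap s γ)) := by
  have h1 := cs_dfp (P := P) γ
  have h2 : Dfp fun _ : E0 M × M => P γ := dfp_prop _
  exact A.nfu.aa_iff_iff.2 (A.nfu.aa_const.trans (h.out γ hγ))

variable [B0 : BitC M] {A : Amp M} {i c B : M}

/-- the hypotheses on the bits: the set `c` gives the bits below `i`, the set `B` the bits below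
`κ`, and almost all collapses map `c` to the bits below the collapse of `i` -/
structure BitH (A : Amp M) (i c B : M) : Prop where
  ord : IsOrd i
  mem : i ∈ Vr A.η
  sub : A.κ ⊆ i
  csub : c ⊆ i
  agc : AgB B0 (BitC.ofSet c) i
  agB : ∀ l ∈ A.κ, LimIx l → (BitC.b l ↔ l ∈ B)
  aa : A.aa fun s => mc s i ∈ A.κ ∧ mc s c = B ∩ mc s i

namespace BitH

variable (H : BitH A i c B)

include H

theorem cmem : c ∈ Vr A.η := mem_Vr_of_sub H.mem H.csub

theorem agS {s : M} (h1 : mc s i ∈ A.κ) (h2 : mc s c = B ∩ mc s i) :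
    AgB B0 (BitC.ofSet (mc s c)) (mc s i) := by
  intro l hl hl'
  rw [H.agB l (A.ord_κ.trans hl h1) hl']
  change l ∈ B ↔ l ∈ mc s c
  rw [h2, mem_inter]
  exact ⟨fun h => ⟨h, hl⟩, fun h => h.1⟩

theorem aa_sub_κ : A.aa fun s => mc s i ⊆ A.κ :=
  Amp.aa_mono H.aa fun _ _ h => A.ord_κ.sub_of_mem h.1

/-- the key lemma -/
theorem refl1 {F : M → M} {G : M → M → M} (hF : Dff fun γ : E0 M × M => F γ.2)
    (hG : Dff fun γ : (E0 M × M) × M => G γ.1.2 γ.2)
    (hL : ∀ [ClIt A], Lf A fun γ : (E0 M × M) × M => G γ.1.2 γ.2)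
    (hFG : ∀ c j, IsOrd j → AgB B0 (BitC.ofSet c) j → F j = G c j) [ClIt A]
    {j : M} (hj : IsOrd j) (hji : j ⊆ i) (hjm : j ∈ Vr A.η) :
    F j ∈ Vr A.η ∧ A.aa fun s => mc s (F j) = F (mc s j) := by
  have h1 : ∀ {Δ : Type} [IsCtx Δ M] {u : Δ → M} [Dff u], Dff fun δ => F (u δ) :=
    fun {_ _ _ _} => dff_un hF
  have h2 : ∀ {Δ : Type} [IsCtx Δ M] {u v : Δ → M} [Dff u] [Dff v], Dff fun δ => G (u δ) (v δ) :=
    fun {_ _ _ _ _ _} => dff_bin hG
  have h3 := hL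
  have e : F j = G c j := hFG c j hj (H.agc.mono hji)
  rw [e]
  refine ⟨Lf.mem2 H.cmem hjm, ?_⟩
  have h4 := Lf.ap2 (A := A) (F := G) H.cmem hjm
  refine Amp.aa_mono (Amp.aa_and h4 H.aa) fun s _ ⟨h5, h6, h7⟩ => ?_
  rw [← h5]
  refine (hFG _ _ (isOrd_mc hj) ((H.agS h6 h7).mono ?_)).symm
  intro z hz
  obtain ⟨y, hy, hyj, rfl⟩ := mem_mc.1 hz
  exact mem_mc.2 ⟨y, hy, hji y hyj, rfl⟩

section

variable [ClIt A]

theorem refl_alp {j : M} (hj : IsOrd j) (hji : j ⊆ i) (hjm : j ∈ Vr A.η) :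
    alp j ∈ Vr A.η ∧ A.aa fun s => mc s (alp j) = alp (mc s j) :=
  H.refl1 (F := fun j => alp j) (G := fun c j => @alp M _ (BitC.ofSet c) j) inferInstance
    inferInstance inferInstance (fun _ j h1 h2 => alp_congr j h1 h2) hj hji hjm

theorem refl_dlt {j : M} (hj : IsOrd j) (hji : j ⊆ i) (hjm : j ∈ Vr A.η) :
    dlt j ∈ Vr A.η ∧ A.aa fun s => mc s (dlt j) = dlt (mc s j) :=
  H.refl1 (F := fun j => dlt j) (G := fun c j => @dlt M _ (BitC.ofSet c) j) inferInstance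
    inferInstance inferInstance (fun _ _ h1 h2 => dlt_congr h1 h2) hj hji hjm

theorem refl_tau {j : M} (hj : IsOrd j) (hji : j ⊆ i) (hjm : j ∈ Vr A.η) :
    tau j ∈ Vr A.η ∧ A.aa fun s => mc s (tau j) = tau (mc s j) :=
  H.refl1 (F := fun j => tau j) (G := fun c j => @tau M _ (BitC.ofSet c) j) inferInstance
    inferInstance inferInstance (fun _ _ h1 h2 => tau_congr h1 h2) hj hji hjm

theorem refl_DD {j : M} (hj : IsOrd j) (hji : j ⊆ i) (hjm : j ∈ Vr A.η) :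
    DD j ∈ Vr A.η ∧ A.aa fun s => mc s (DD j) = DD (mc s j) :=
  H.refl1 (F := fun j => DD j) (G := fun c j => @DD M _ (BitC.ofSet c) j) inferInstance
    inferInstance inferInstance (fun _ _ h1 h2 => DD_congr h1 h2) hj hji hjm

theorem refl_CP {j : M} (hj : IsOrd j) (hji : j ⊆ i) (hjm : j ∈ Vr A.η) :
    CP j ∈ Vr A.η ∧ A.aa fun s => mc s (CP j) = CP (mc s j) :=
  H.refl1 (F := fun j => CP j) (G := fun c j => @CP M _ (BitC.ofSet c) j) inferInstance
    inferInstance inferInstance (fun _ _ h1 h2 => CP_congr h1 h2) hj hji hjm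

theorem refl_CL {j : M} (hj : IsOrd j) (hji : j ⊆ i) (hjm : j ∈ Vr A.η) :
    CL j ∈ Vr A.η ∧ A.aa fun s => mc s (CL j) = CL (mc s j) :=
  H.refl1 (F := fun j => CL j) (G := fun c j => @CL M _ (BitC.ofSet c) j) inferInstance
    inferInstance inferInstance (fun _ _ h1 h2 => CL_congr h1 h2) hj hji hjm

theorem refl_Nm {j : M} (hj : IsOrd j) (hji : j ⊆ i) (hjm : j ∈ Vr A.η) :
    Nm j ∈ Vr A.η ∧ A.aa fun s => mc s (Nm j) = Nm (mc s j) :=
  H.refl1 (F := fun j => Nm j) (G := fun c j => @Nm M _ (BitC.ofSet c) j) inferInstance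
    inferInstance inferInstance (fun _ _ h1 h2 => Nm_congr h1 h2) hj hji hjm

/-- almost all `s` reflect all levels `j ∈ s` up to `i` -/
theorem refl_all : A.aa fun s => ∀ j ∈ s, IsOrd j → j ⊆ i →
    (mc s (alp j) = alp (mc s j) ∧ mc s (tau j) = tau (mc s j) ∧ mc s (DD j) = DD (mc s j)) ∧
      mc s (CP j) = CP (mc s j) ∧ mc s (CL j) = CL (mc s j) ∧ mc s (Nm j) = Nm (mc s j) := by
  refine Amp.aa_all.2 fun j hjm => ?_
  by_cases hj : IsOrd j ∧ j ⊆ i
  swap
  · exact Amp.aa_of_all fun s _ h1 h2 => absurd ⟨h1, h2⟩ hj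
  obtain ⟨hj, hji⟩ := hj
  have h1 := Amp.aa_and (H.refl_alp hj hji hjm).2
    (Amp.aa_and (H.refl_tau hj hji hjm).2 (H.refl_DD hj hji hjm).2)
  have h2 := Amp.aa_and (H.refl_CP hj hji hjm).2
    (Amp.aa_and (H.refl_CL hj hji hjm).2 (H.refl_Nm hj hji hjm).2)
  exact Amp.aa_mono (Amp.aa_and h1 h2) fun s _ h _ _ => h

end

end BitH

end

end Pool.Agent.IST
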