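import Pool.Agent.SC.Refl2
import Pool.Agent.SC.ReflB
import Pool.Agent.SC.Bits
import Pool.Agent.LP.BitL

/-!
# Reflection of the iteration: `H64`
-/

set_option synthInstance.maxSize 100000

namespace Pool.Agent.IST

open Pool.Agent.BVM CMap Amp

section

variable {M : Type} [SetModel M]

section

variable [bc : BitC M] {A : Amp M} {i B : M}

theorem agB_sep : AgB bc (BitC.ofSet (sep i fun x => BitC.b x)) i := fun _ hl _ =>
  ⟨fun h => mem_sep.2 ⟨hl, h⟩, fun h => (mem_sep.1 h).2⟩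

theorem agB_mc {k s : M} (hk : IsOrd k) (hb : ∀ z ∈ k, (BitC.b z ↔ z ∈ B)) (h1 : mc s i ∈ k)
    (h2 : mc s (sep i fun x => BitC.b x) = B ∩ mc s i) :
    AgB bc (BitC.ofSet (mc s (sep i fun x => BitC.b x))) (mc s i) := fun l hl _ => by
  rw [h2]
  exact (hb l (hk.trans hl h1)).trans ⟨fun h => mem_inter.2 ⟨h, hl⟩, fun h => (mem_inter.1 h).1⟩

variable [ClIt A] (hi : IsOrd i) (hiV : i ∈ Vr A.η) (hb : ∀ z ∈ A.κ, (BitC.b z ↔ z ∈ B))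
  (h : A.aa fun s => mc s i ∈ A.κ ∧ mc s (sep i fun x => BitC.b x) = B ∩ mc s i)

omit [ClIt A] in
theorem bits_mem_Vr (hiV : i ∈ Vr A.η) : (sep i fun x => BitC.b x) ∈ Vr A.η :=
  mem_Vr_of_sub hiV fun _ h => (mem_sep.1 h).1

include hi hiV

theorem CP_mem_Vr : CP i ∈ Vr A.η := by
  rw [CP_congr hi agB_sep]
  exact (inferInstance : Lf A fun γ : (E0 M × M) × M => @CP M _ (BitC.ofSet γ.1.2) γ.2).mem
    ((⟨⟩, _), i) ⟨⟨trivial, bits_mem_Vr hiV⟩, hiV⟩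

theorem CL_mem_Vr : CL i ∈ Vr A.η := by
  rw [CL_congr hi agB_sep]
  exact (inferInstance : Lf A fun γ : (E0 M × M) × M => @CL M _ (BitC.ofSet γ.1.2) γ.2).mem
    ((⟨⟩, _), i) ⟨⟨trivial, bits_mem_Vr hiV⟩, hiV⟩

theorem alp_mem_Vr : alp i ∈ Vr A.η := by
  rw [alp_congr i hi agB_sep]
  exact (inferInstance : Lf A fun γ : (E0 M × M) × M => @alp M _ (BitC.ofSet γ.1.2) γ.2).mem
    ((⟨⟩, _), i) ⟨⟨trivial, bits_mem_Vr hiV⟩, hiV⟩

include hb h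

theorem aa_CP : A.aa fun s => mc s (CP i) = CP (mc s i) := by
  have h1 := Lf.ap2 (A := A) (F := fun c i => @CP M _ (BitC.ofSet c) i) (bits_mem_Vr hiV) hiV
  refine aa_mono (A := A) (aa_and h h1) fun s _ ⟨⟨h2, h3⟩, h4⟩ => ?_
  rw [CP_congr (isOrd_mc hi) (agB_mc A.ord_κ hb h2 h3), CP_congr hi agB_sep]
  exact h4.symm

theorem aa_CL : A.aa fun s => mc s (CL i) = CL (mc s i) := by
  have h1 := Lf.ap2 (A := A) (F := fun c i => @CL M _ (BitC.ofSet c) i) (bits_mem_Vr hiV) hiV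
  refine aa_mono (A := A) (aa_and h h1) fun s _ ⟨⟨h2, h3⟩, h4⟩ => ?_
  rw [CL_congr (isOrd_mc hi) (agB_mc A.ord_κ hb h2 h3), CL_congr hi agB_sep]
  exact h4.symm

theorem aa_alp : A.aa fun s => mc s (alp i) = alp (mc s i) := by
  have h1 := Lf.ap2 (A := A) (F := fun c i => @alp M _ (BitC.ofSet c) i) (bits_mem_Vr hiV) hiV
  refine aa_mono (A := A) (aa_and h h1) fun s _ ⟨⟨h2, h3⟩, h4⟩ => ?_
  rw [alp_congr _ (isOrd_mc hi) (agB_mc A.ord_κ hb h2 h3), alp_congr i hi agB_sep]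
  exact h4.symm

end

/-- `H64`: the iteration whose bits below `κ` are given by `B` -/
theorem h64 [BitC M] {κ B : M} (h1 : IsCard κ) (hb : ∀ z ∈ κ, (BitC.b z ↔ z ∈ B))
    (hB : ∀ th i c, IsLim th → i ∈ th → IsOrd i → κ ⊆ i → c ⊆ i →
      (∀ x ∈ κ, x ∈ c ↔ x ∈ B) → κ ∈ th →
      ∃ U, IsAmp κ th U ∧ Aa U (pws κ (Vr th)) fun s => mc s i ∈ κ ∧ mc s c = B ∩ mc s i) :
    H64 κ := by
  intro l1 hl1 hκl
  refine ⟨l1, hl1, fun j hj hlj => ?_⟩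
  have hi : IsOrd (sc j) := hj.sc
  have hκi : κ ⊆ sc j := Sub.trans hκl (Sub.trans hlj (sub_sc j))
  obtain ⟨η, hη, hiη, hA⟩ := exists_clIt hi
  have hjη : j ∈ η := hη.1.trans (self_mem_sc j) hiη
  have hlη : l1 ∈ η := hl1.mem_of_sub_of_mem hη.1 hlj hjη
  have hκη : κ ∈ η := h1.1.mem_of_sub_of_mem hη.1 hκl hlη
  obtain ⟨U, hU, haa⟩ := hB η (sc j) (sep (sc j) fun x => BitC.b x) hη hiη hi hκi
    (fun x hx => (mem_sep.1 hx).1)
    (fun x hx => ⟨fun h => (hb x hx).1 (mem_sep.1 h).2, fun h =>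
      mem_sep.2 ⟨hκi x hx, (hb x hx).2 h⟩⟩) hκη
  let A : Amp M := ⟨κ, η, U, hU⟩
  have hAcl : ClIt A := hA A rfl
  have hiV : sc j ∈ Vr A.η := (ord_mem_Vr_iff hi hη.1).2 hiη
  have hlV : l1 ∈ Vr A.η := (ord_mem_Vr_iff hl1 hη.1).2 hlη
  have haa' : A.aa fun s => mc s (sc j) ∈ A.κ ∧
      mc s (sep (sc j) fun x => BitC.b x) = B ∩ mc s (sc j) := haa
  have e1 := aa_CP (A := A) hi hiV hb haa'
  have e2 := aa_CL (A := A) hi hiV hb haa'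
  have e3 := aa_alp (A := A) hi hiV hb haa'
  have e4 : A.aa fun s => mc s (sc j) ∈ A.κ := aa_mono (A := A) haa' fun s _ h => h.1
  have e5 := aa_rf4 (A := A) hi hκi (CP_mem_Vr hi hiV) (CL_mem_Vr hi hiV) e1 e2 e4
  have e6 := card_inter_ord (A := A) hl1 hlV
  refine ⟨A, rfl, hiV, CP_mem_Vr hi hiV, fun z hz => A.trans_Z hz hlV, ?_⟩
  refine aa_mono (A := A) (aa_and (aa_and e5 e6) (aa_and e3 (aa_fine (A := A) hlV))) fun s _
    ⟨⟨a1, a2⟩, a3, a4⟩ => ⟨a1, ?_⟩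
  have a5 : mc s l1 ∈ mc s (alp (sc j)) := by
    refine mc_mem_mc a4 ?_
    exact hl1.mem_of_sub_of_mem (isOrd_alp hi) (Sub.trans hlj (Sub.refl j))
      (self_sub_alp hi j (self_mem_sc j))
  rw [a3] at a5
  exact (isOrd_card _).mem_of_sub_of_mem (isOrd_alp (isOrd_mc hi)) a2 a5

end

end Pool.Agent.IST
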