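import Pool.Agent.LP.Size
import Pool.Agent.IST.AmpT

/-!
# The iteration below an inaccessible cardinal
-/

set_option synthInstance.maxSize 100000

namespace Pool.Agent.IST

open Pool.Agent.BVM

section

variable {M : Type} [SetModel M] [BitC M]

omit [BitC M] in
theorem scard_mem_slim {κ α : M} (h : IsSLim κ) (hα : α ∈ κ) (hc : IsCard α) : scard α ∈ κ :=
  (isCard_scard hc.1).1.mem_of_sub_of_mem h.1.isOrd (scard_sub_pow2 hc) (h.2 α hα)

section

variable {κ : M} (hr : IsReg κ) (hs : IsSLim κ) (ho : om ∈ κ)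

include hr hs ho

omit hs in
theorem dlt_mem_inacc {j : M} (hj : j ∈ κ) (h : ∀ k ∈ j, alp k ∈ κ) : dlt j ∈ κ := by
  refine hr.isOrd.union_mem ho (hr.bigU_mem ?_ fun x hx => ?_)
  · exact (isOrd_card _).mem_of_sub_of_mem hr.isOrd (card_sub_iff.2 (leq_img _ _))
      (card_mem_of_mem hr.isCard hj)
  · obtain ⟨k, hk, rfl⟩ := mem_img.1 hx
    exact h k hk

omit [BitC M] hr ho in
theorem tauF_mem_inacc {j d a : M} (hd : d ∈ κ) (ha : a ∈ κ) : tauF j d a ∈ κ := by
  unfold tauF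
  split_ifs
  · exact hs.2 _ (hs.2 _ hd)
  · exact hs.2 _ ha

theorem alp_mem_inacc {j : M} (hj : j ∈ κ) : alp j ∈ κ := by
  have key : ∀ j : M, IsOrd j → j ∈ κ → alp j ∈ κ := by
    refine ord_ind (fun j => j ∈ κ → alp j ∈ κ) fun j hj ih hjκ => ?_
    have h1 : ∀ k ∈ j, alp k ∈ κ := fun k hk => ih k hk (hr.isOrd.trans hk hjκ)
    rcases limIx_or_sc hj with h | ⟨k, hk, rfl⟩
    · rw [alp_lim h]
      exact scard_mem_slim hs (dlt_mem_inacc hr ho hjκ h1) (infCard_dlt hj).1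
    · have h2 : k ∈ κ := hr.isOrd.trans (self_mem_sc k) hjκ
      have h3 : dlt k ∈ κ := dlt_mem_inacc hr ho h2 fun l hl => h1 l (sub_sc k l hl)
      have h4 : tau k ∈ κ := tauF_mem_inacc hs h3 (h1 k (self_mem_sc k))
      have h5 := infCard_tau hk
      rw [alp_sc hk]
      unfold nxtF
      split_ifs
      · exact scard_mem_slim hs (scard_mem_slim hs (scard_mem_slim hs h4 h5.1)
          (isCard_scard h5.isOrd)) (isCard_scard (isCard_scard h5.isOrd).1)
      · exact scard_mem_slim hs h4 h5.1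
  exact key j (hr.isOrd.mem hj) hj

theorem dlt_mem_inacc' {j : M} (hj : j ∈ κ) : dlt j ∈ κ :=
  dlt_mem_inacc hr ho hj fun _ hk => alp_mem_inacc hr hs ho (hr.isOrd.trans hk hj)

theorem tau_mem_inacc {j : M} (hj : j ∈ κ) : tau j ∈ κ :=
  tauF_mem_inacc hs (dlt_mem_inacc' hr hs ho hj) (alp_mem_inacc hr hs ho hj)

theorem DD_mem_inacc {j : M} (hj : j ∈ κ) : DD j ∈ κ := by
  have h4 := tau_mem_inacc hr hs ho hj
  have h5 := infCard_tau (hr.isOrd.mem hj)
  unfold DD
  split_ifs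
  · exact scard_mem_slim hs (scard_mem_slim hs h4 h5.1) (isCard_scard h5.isOrd)
  · exact alp_mem_inacc hr hs ho hj

theorem dlt_inacc : dlt κ = κ := by
  refine Sub.antisymm (fun z hz => ?_) (self_sub_dlt (Or.inr hr.infCard.isLim))
  rcases mem_union.1 hz with h | h
  · exact hr.isOrd.trans h ho
  · obtain ⟨y, hy, hz⟩ := mem_bigU.1 h
    obtain ⟨k, hk, rfl⟩ := mem_img.1 hy
    exact hr.isOrd.trans hz (alp_mem_inacc hr hs ho hk)

theorem CP_mem_inacc {k : M} (hk : k ∈ κ) : CP k ∈ Vr κ := by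
  have hl := hr.infCard.isLim
  have key : ∀ k : M, IsOrd k → k ∈ κ → CP k ∈ Vr κ := by
    refine ord_ind (fun k => k ∈ κ → CP k ∈ Vr κ) fun k hk ih hkκ => ?_
    have hsc := hl.2.2 k hkκ
    refine mem_Vr_of_card hr (fun p hp => ?_) ?_
    · obtain ⟨h1, h2⟩ := (mem_CP hk).1 hp
      refine mem_Vr_of_card hr (fun w hw => ?_) ?_
      · obtain ⟨x, hx, rfl⟩ := h1.1.mem_iff.1 hw
        have h3 := h2 x hx
        have h4 := hr.isOrd.trans h3 hkκ
        have h5 := hr.isOrd.mem h4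
        refine op_mem_Vr hl ?_ ?_
        · obtain ⟨i, hi, ξ, hξ, rfl⟩ := (h1.2.1 x hx).1
          rw [p1_op] at h4 h5
          have h6 := DD_mem_inacc hr hs ho h4
          exact op_mem_Vr hl ((ord_mem_Vr_iff h5 hr.isOrd).2 h4)
            ((ord_mem_Vr_iff (hr.isOrd.mem (hr.isOrd.trans hξ h6)) hr.isOrd).2
              (hr.isOrd.trans hξ h6))
        · have h6 := (h1.2.1 x hx).2
          unfold Nm at h6
          rw [mem_NmS] at h6
          refine mem_Vr_of_sub (prod_mem_Vr hl (ih _ h3 h4) ?_) h6.1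
          have h7 := tau_mem_inacc hr hs ho h4
          exact (ord_mem_Vr_iff (hr.isOrd.mem h7) hr.isOrd).2 h7
      · refine (isOrd_card _).mem_of_sub_of_mem hr.isOrd ?_
          (hr.isOrd.trans (card_dom hk hp) (alp_mem_inacc hr hs ho hkκ))
        exact card_sub_iff.2 (leq_fun h1.1)
    · refine (isOrd_card _).mem_of_sub_of_mem hr.isOrd ?_
        (hr.isOrd.trans (card_CP_sc hk) (alp_mem_inacc hr hs ho hsc))
      exact card_mono (CP_mono hk hk.sc (sub_sc k))
  exact key k (hr.isOrd.mem hk) hk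

/-- the conditions of level `κ` are in `V_κ` -/
theorem CP_sub_inacc : CP κ ⊆ Vr κ := by
  intro p hp
  have hl := hr.infCard.isLim
  obtain ⟨j, hj, hpj⟩ := mem_CP_reg hl (by rw [dlt_inacc hr hs ho]; exact hr) hp
  exact isTrans_Vr κ _ (CP_mem_inacc hr hs ho hj) p hpj

end

end

end Pool.Agent.IST
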