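import Pool.Agent.LP.Pure
import Pool.Agent.IST.Los

/-!
# Reflection of a levelled class poset, the main lemma

`A` is a normal ultrafilter on a set of subsets of `V_η`, `i` a level of `P`.  `P.Rfs i ms s`: the
collapse with respect to `s` maps `PP i ∩ s` isomorphically onto `PP (mc s i)`, and `ms s` is a
master condition.  If this holds for almost all `s` then every name of a list of subsets of the
elements of a set `Z` of subsets of `l1` is ineffable (`main`).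
-/

set_option synthInstance.maxSize 100000

namespace Pool.Agent.IST

open Pool.Agent.BVM

namespace LPo

variable {M : Type} [SetModel M] {Γ : Type} [IsCtx Γ M]

/-- `s` reflects the level `i` of `P`, and `ms s` is a master condition -/
def Rfs (P : LPo M) (i : M) (ms : M → M) (s : M) : Prop :=
  (mc s i ⊆ i ∧ card (P.PP (mc s i)) ∈ P.al (mc s i) ∧
    ∀ r ∈ P.PP (mc s i), ∃ r' ∈ s, r' ∈ P.PP i ∧ r = mc s r') ∧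
  (∀ r ∈ s, r ∈ P.PP i → mc s r ∈ P.PP (mc s i)) ∧
  (∀ r ∈ s, r ∈ P.PP i → ∀ r' ∈ s, r' ∈ P.PP i → (P.le (mc s r') (mc s r) ↔ P.le r' r)) ∧
  (ms s ∈ P.PP i ∧ P.rs (mc s i) (ms s) = P.one) ∧
  ∀ r ∈ s, r ∈ P.PP i → P.le (P.gl (mc s i) (mc s r) (ms s)) r

theorem Rfs.dfp (P : LPo M) {ms : M → M} (hm : Dff fun γ : E0 M × M => ms γ.2) {f g : Γ → M}
    [Dff f] [Dff g] : Dfp fun γ => P.Rfs (f γ) ms (g γ) := by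
  have h1 : ∀ {Δ : Type} [IsCtx Δ M] {u : Δ → M} [Dff u], Dff fun δ => ms (u δ) :=
    fun {_ _ _ _} => Dff.use1 hm
  unfold Rfs; infer_instance

end LPo

open LPo Amp

/-- the reflection package -/
structure Rfl {M : Type} [SetModel M] (P : LPo M) (A : Amp M) (i : M) (ms : M → M) : Prop where
  ordi : IsOrd i
  ppi : P.PP i ∈ Vr A.η
  ordk : IsOrd A.κ
  omk : om ∈ A.κ
  kη : A.κ ⊆ Vr A.η
  msd : Dff fun γ : E0 M × M => ms γ.2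
  kap : A.aa fun s => s ∩ A.κ ∈ A.κ
  rf : A.aa (P.Rfs i ms)

namespace Rfl

variable {M : Type} [SetModel M] [GCh M] {Γ : Type} [IsCtx Γ M] {P : LPo M} {A : Amp M} {i : M}
  {ms : M → M}

omit [GCh M] in
/-- the property of master conditions -/
theorem _root_.Pool.Agent.IST.LPo.Rfs.mc_le {s t r : M} (hi : IsOrd i) (h : P.Rfs i ms s)
    (hr : r ∈ s) (hr' : r ∈ P.PP i) (h1 : P.le t (ms s)) (h2 : P.le (P.rs (mc s i) t) (mc s r)) :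
    P.le t r := by
  obtain ⟨-, h3, -, ⟨h4, h5⟩, h6⟩ := h
  have hk : IsOrd (mc s i) := isOrd_mc hi
  have h7 := h3 r hr hr'
  have hc := ((P.mem_PP hi).1 h4).1
  have hc' := ((P.mem_PP hk).1 h7).1
  have h8 : P.le (mc s r) (P.rs (mc s i) (ms s)) := by rw [h5]; exact P.le_one hc'
  exact P.le_trans (P.le_gl hk hc h7 h8 (P.le_trans (P.le_rs hk (P.left h1)) h2) h1) (h6 r hr hr')

variable {l1 Z p0 : M} {Dp Dn : M → M → M → Prop}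

/-- the condition `ms s`, improved -/
def Imp (P : LPo M) (i : M) (ms : M → M) (l1 p0 : M) (Dp Dn : M → M → M → Prop) (s q : M) : Prop :=
  q ∈ P.PP i ∧ P.le q (P.gl (mc s i) (mc s p0) (ms s)) ∧ P.rs (mc s i) q = mc s p0 ∧
    ∀ ξ ∈ s ∩ l1, ∀ r ∈ P.PP (mc s i), P.le r (mc s p0) → ∃ r' ∈ P.PP (mc s i), P.le r' r ∧
      (Dp (P.gl (mc s i) r' q) (s ∩ l1) ξ ∨ Dn (P.gl (mc s i) r' q) (s ∩ l1) ξ)

omit [GCh M] in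
theorem Imp.dfp (hm : Dff fun γ : E0 M × M => ms γ.2)
    (hp : Dfp fun γ : ((E0 M × M) × M) × M => Dp γ.1.1.2 γ.1.2 γ.2)
    (hn : Dfp fun γ : ((E0 M × M) × M) × M => Dn γ.1.1.2 γ.1.2 γ.2) {f g : Γ → M}
    [Dff f] [Dff g] : Dfp fun γ => Imp P i ms l1 p0 Dp Dn (f γ) (g γ) := by
  have h1 : ∀ {Δ : Type} [IsCtx Δ M] {u : Δ → M} [Dff u], Dff fun δ => ms (u δ) :=
    fun {_ _ _ _} => Dff.use1 hm
  have h2 : ∀ {Δ : Type} [IsCtx Δ M] {u v w : Δ → M} [Dff u] [Dff v] [Dff w],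
    Dfp fun δ => Dp (u δ) (v δ) (w δ) := fun {_ _ _ _ _ _ _ _} => Dfp.use3 hp
  have h3 : ∀ {Δ : Type} [IsCtx Δ M] {u v w : Δ → M} [Dff u] [Dff v] [Dff w],
    Dfp fun δ => Dn (u δ) (v δ) (w δ) := fun {_ _ _ _ _ _ _ _} => Dfp.use3 hn
  unfold Imp; infer_instance

theorem exists_imp (hi : IsOrd i) (hp0 : p0 ∈ P.PP i)
    (hp : Dfp fun γ : ((E0 M × M) × M) × M => Dp γ.1.1.2 γ.1.2 γ.2)
    (hn : Dfp fun γ : ((E0 M × M) × M) × M => Dn γ.1.1.2 γ.1.2 γ.2)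
    (op : ∀ a ξ r r', Dp r a ξ → P.le r' r → Dp r' a ξ)
    (on : ∀ a ξ r r', Dn r a ξ → P.le r' r → Dn r' a ξ)
    (hd : ∀ a ∈ Z, ∀ ξ ∈ a, ∀ r ∈ P.PP i, P.le r p0 → ∃ r' ∈ P.PP i, P.le r' r ∧
      (Dp r' a ξ ∨ Dn r' a ξ)) {s : M} (h : P.Rfs i ms s) (hs : p0 ∈ s) (hz : s ∩ l1 ∈ Z)
    (hc : card (s ∩ l1) ∈ P.al (mc s i)) : ∃ q, Imp P i ms l1 p0 Dp Dn s q := by
  have h2 : ∀ {Δ : Type} [IsCtx Δ M] {u v w : Δ → M} [Dff u] [Dff v] [Dff w],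
    Dfp fun δ => Dp (u δ) (v δ) (w δ) := fun {_ _ _ _ _ _ _ _} => Dfp.use3 hp
  have h3 : ∀ {Δ : Type} [IsCtx Δ M] {u v w : Δ → M} [Dff u] [Dff v] [Dff w],
    Dfp fun δ => Dn (u δ) (v δ) (w δ) := fun {_ _ _ _ _ _ _ _} => Dfp.use3 hn
  have hk : IsOrd (mc s i) := isOrd_mc hi
  have hg := h
  obtain ⟨⟨g1, g2, -⟩, g3, -, ⟨g4, g5⟩, -⟩ := hg
  have g6 := g3 p0 hs hp0
  have c0 := ((P.mem_PP hk).1 g6).1
  have c1 := ((P.mem_PP hi).1 g4).1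
  have h8 : P.le (mc s p0) (P.rs (mc s i) (ms s)) := by rw [g5]; exact P.le_one c0
  have g7 : P.gl (mc s i) (mc s p0) (ms s) ∈ P.PP i := P.gl_mem hk hi g1 g4 g6 h8
  have g8 := P.rs_gl hk c1 g6 h8
  have g9 : ∀ u, P.le u (P.gl (mc s i) (mc s p0) (ms s)) → P.le u p0 := by
    intro u hle
    refine h.mc_le hi hs hp0 (P.le_trans hle (P.gl_le hk c1 g6 h8)) ?_
    have := P.rs_mono hk hle
    rwa [g8] at this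
  obtain ⟨q, q1, ⟨q2, q3⟩, q4⟩ := pure_dec_bdd (P := P) hk hi g1 g2 g7 hc
    (fun ξ u => Dp u (s ∩ l1) ξ ∨ Dn u (s ∩ l1) ξ)
    (fun ξ _ u u' hu hle => hu.imp (fun h => op _ _ _ _ h hle) fun h => on _ _ _ _ h hle)
    (fun ξ hξ u hu hle => hd _ hz ξ hξ u hu (g9 u hle))
  refine ⟨q, q1, q2, by rw [q3, g8], fun ξ hξ r hr hle => ?_⟩
  exact q4 ξ hξ r hr (by rw [g8]; exact hle)

omit [GCh M] in
/-- almost all elements contain `omega` -/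
theorem aa_om (H : Rfl P A i ms) : A.aa fun s => om ⊆ s := by
  have h0 : Dfp fun γ : (E0 M × M) × M => γ.1.2 ∈ γ.2 := inferInstance
  refine (A.nfu.aa_small (χ := fun z s => z ∈ s) H.omk).2 fun z hz => ?_
  exact aa_fine (A.trans_Z hz (H.kη _ H.omk))

/-- the main lemma -/
theorem main (H : Rfl P A i ms) (hp0 : p0 ∈ P.PP i) (l1η : l1 ⊆ Vr A.η) (kl : A.κ ⊆ l1)
    (hZ : ∀ s ∈ A.D, s ∩ l1 ∈ Z) (hc : A.aa fun s => card (s ∩ l1) ∈ P.al (mc s i))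
    (hp : Dfp fun γ : ((E0 M × M) × M) × M => Dp γ.1.1.2 γ.1.2 γ.2)
    (hn : Dfp fun γ : ((E0 M × M) × M) × M => Dn γ.1.1.2 γ.1.2 γ.2)
    (op : ∀ a ξ r r', Dp r a ξ → P.le r' r → Dp r' a ξ)
    (on : ∀ a ξ r r', Dn r a ξ → P.le r' r → Dn r' a ξ)
    (opn : ∀ a ξ r, Dp r a ξ → Dn r a ξ → False)
    (hd : ∀ a ∈ Z, ∀ ξ ∈ a, ∀ r ∈ P.PP i, P.le r p0 → ∃ r' ∈ P.PP i, P.le r' r ∧
      (Dp r' a ξ ∨ Dn r' a ξ)) :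
    ∃ Ep En : M,
      (∀ t, t ∈ Ep → ∃ r ∈ P.PP i, ∃ ξ ∈ l1, t = IST.op r ξ ∧ P.le r p0) ∧
      (∀ t, t ∈ En → ∃ r ∈ P.PP i, ∃ ξ ∈ l1, t = IST.op r ξ ∧ P.le r p0) ∧
      (∀ r r' ξ, IST.op r ξ ∈ Ep → r' ∈ P.PP i → P.le r' r → IST.op r' ξ ∈ Ep) ∧
      (∀ r r' ξ, IST.op r ξ ∈ En → r' ∈ P.PP i → P.le r' r → IST.op r' ξ ∈ En) ∧
      (∀ r ξ, IST.op r ξ ∈ Ep → IST.op r ξ ∈ En → False) ∧
      (∀ ξ ∈ l1, ∀ r ∈ P.PP i, P.le r p0 → ∃ r' ∈ P.PP i, P.le r' r ∧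
        (IST.op r' ξ ∈ Ep ∨ IST.op r' ξ ∈ En)) ∧
      ∀ R : M → M → M → Prop,
        (Dfp fun γ : ((E0 M × M) × M) × M => R γ.1.1.2 γ.1.2 γ.2) →
        (∀ n ∈ (om : M), ∀ ξ ∈ l1, ∀ r ∈ P.PP i, P.le r p0 → ∃ r' ∈ P.PP i, P.le r' r ∧
          ∃ v ∈ l1, R r' (IST.op n ξ) v) →
        ∀ p ∈ P.PP i, P.le p p0 → ∃ a ∈ Z, om ⊆ a ∧ a ⊆ l1 ∧ a ∩ A.κ ∈ A.κ ∧
          ∃ q ∈ P.PP i, P.le q p ∧
          (∀ ξ ∈ a, ∀ q' ∈ P.PP i, P.le q' q → ∃ q'' ∈ P.PP i, P.le q'' q' ∧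
            ((∃ r, IST.op r ξ ∈ Ep ∧ P.le q'' r ∧ Dp q'' a ξ) ∨
              ∃ r, IST.op r ξ ∈ En ∧ P.le q'' r ∧ Dn q'' a ξ)) ∧
          ∀ n ∈ (om : M), ∀ ξ ∈ a, ∀ q' ∈ P.PP i, P.le q' q → ∃ q'' ∈ P.PP i, P.le q'' q' ∧
            ∃ r ∈ P.PP i, P.le q'' r ∧ ∃ v ∈ a, R r (IST.op n ξ) v := by
  classical
  have hi := H.ordi
  have dm : ∀ {Δ : Type} [IsCtx Δ M] {u : Δ → M} [Dff u], Dff fun δ => ms (u δ) :=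
    fun {_ _ _ _} => Dff.use1 H.msd
  have dp : ∀ {Δ : Type} [IsCtx Δ M] {u v w : Δ → M} [Dff u] [Dff v] [Dff w],
    Dfp fun δ => Dp (u δ) (v δ) (w δ) := fun {_ _ _ _ _ _ _ _} => Dfp.use3 hp
  have dn : ∀ {Δ : Type} [IsCtx Δ M] {u v w : Δ → M} [Dff u] [Dff v] [Dff w],
    Dfp fun δ => Dn (u δ) (v δ) (w δ) := fun {_ _ _ _ _ _ _ _} => Dfp.use3 hn
  have dr : ∀ {Δ : Type} [IsCtx Δ M] {u v : Δ → M} [Dff u] [Dff v],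
    Dfp fun δ => P.Rfs (u δ) ms (v δ) := fun {_ _ _ _ _ _} => Rfs.dfp P H.msd
  have di : ∀ {Δ : Type} [IsCtx Δ M] {u v : Δ → M} [Dff u] [Dff v],
    Dfp fun δ => Imp P i ms l1 p0 Dp Dn (u δ) (v δ) := fun {_ _ _ _ _ _} =>
      Imp.dfp H.msd hp hn
  -- the choice of the improved conditions
  obtain ⟨mp, hmp⟩ : ∃ mp : M → M, mp = fun s => pick fun q => Imp P i ms l1 p0 Dp Dn s q :=
    ⟨_, rfl⟩
  have dmp0 : Dff fun γ : E0 M × M => mp γ.2 := by rw [hmp]; exact pick.dff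
  have dmp : ∀ {Δ : Type} [IsCtx Δ M] {u : Δ → M} [Dff u], Dff fun δ => mp (u δ) :=
    fun {_ _ _ _} => Dff.use1 dmp0
  have p0η : p0 ∈ Vr A.η := A.trans_Z hp0 H.ppi
  -- typical elements
  have ty : A.aa fun s => P.Rfs i ms s ∧ p0 ∈ s ∧ Imp P i ms l1 p0 Dp Dn s (mp s) ∧ om ⊆ s ∧
      s ∩ A.κ ∈ A.κ ∧ s ∩ l1 ∈ Z := by
    have h1 := aa_and (aa_and H.rf (aa_fine p0η)) (aa_and hc (aa_and H.aa_om H.kap))
    refine aa_mono h1 fun s hs h2 => ⟨h2.1.1, h2.1.2, ?_, h2.2.2.1, h2.2.2.2, hZ s hs⟩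
    rw [hmp]
    exact pick_spec (exists_imp hi hp0 hp hn op on hd h2.1.1 h2.1.2 (hZ s hs) h2.2.1)
  have ty1 : ∀ s, (P.Rfs i ms s ∧ p0 ∈ s ∧ Imp P i ms l1 p0 Dp Dn s (mp s) ∧ om ⊆ s ∧
      s ∩ A.κ ∈ A.κ ∧ s ∩ l1 ∈ Z) → ∀ r ∈ s, r ∈ P.PP i → P.le r p0 →
      mc s r ∈ P.PP (mc s i) ∧ P.le (mc s r) (P.rs (mc s i) (mp s)) ∧ P.Cd (mp s) := by
    rintro s ⟨h1, h2, h3, -⟩ r hr hr' hle
    have hg := h1
    obtain ⟨-, g3, g4, -, -⟩ := hg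
    refine ⟨g3 r hr hr', ?_, ((P.mem_PP hi).1 h3.1).1⟩
    rw [h3.2.2.1]
    exact (g4 p0 h2 hp0 r hr hr').2 hle
  -- the reflected relations
  obtain ⟨EE, hEE⟩ : ∃ EE : (M → M → M → Prop) → M, EE = fun D => sep (prod (P.PP i) l1) fun t =>
      P.le (p1 t) p0 ∧ A.aa fun s => D (P.gl (mc s i) (mc s (p1 t)) (mp s)) (s ∩ l1) (p2 t) :=
    ⟨_, rfl⟩
  have hE : ∀ D : M → M → M → Prop,
      (Dfp fun γ : ((E0 M × M) × M) × M => D γ.1.1.2 γ.1.2 γ.2) → ∀ r ξ,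
      (IST.op r ξ ∈ EE D ↔ r ∈ P.PP i ∧ ξ ∈ l1 ∧ P.le r p0 ∧
        A.aa fun s => D (P.gl (mc s i) (mc s r) (mp s)) (s ∩ l1) ξ) := by
    intro D hD r ξ
    have dd : ∀ {Δ : Type} [IsCtx Δ M] {u v w : Δ → M} [Dff u] [Dff v] [Dff w],
      Dfp fun δ => D (u δ) (v δ) (w δ) := fun {_ _ _ _ _ _ _ _} => Dfp.use3 hD
    rw [hEE]
    dsimp only
    rw [mem_sep, op_mem_prod, p1_op, p2_op, and_assoc]
  have hO : ∀ D : M → M → M → Prop,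
      (Dfp fun γ : ((E0 M × M) × M) × M => D γ.1.1.2 γ.1.2 γ.2) →
      (∀ a ξ r r', D r a ξ → P.le r' r → D r' a ξ) →
      ∀ r r' ξ, IST.op r ξ ∈ EE D → r' ∈ P.PP i → P.le r' r → IST.op r' ξ ∈ EE D := by
    intro D hD ho r r' ξ h1 h2 h3
    have dd : ∀ {Δ : Type} [IsCtx Δ M] {u v w : Δ → M} [Dff u] [Dff v] [Dff w],
      Dfp fun δ => D (u δ) (v δ) (w δ) := fun {_ _ _ _ _ _ _ _} => Dfp.use3 hD
    obtain ⟨h4, h5, h6, h7⟩ := (hE D hD r ξ).1 h1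
    refine (hE D hD r' ξ).2 ⟨h2, h5, P.le_trans h3 h6, ?_⟩
    have h8 := aa_and (aa_and (aa_fine (A.trans_Z h4 H.ppi)) (aa_fine (A.trans_Z h2 H.ppi)))
      (aa_and ty h7)
    refine aa_mono h8 fun s hs h9 => ?_
    obtain ⟨⟨g1, g2⟩, g3, g4⟩ := h9
    refine ho _ _ _ _ g4 ?_
    obtain ⟨k1, k2, k3⟩ := ty1 s g3 r g1 h4 h6
    obtain ⟨k4, k5, -⟩ := ty1 s g3 r' g2 h2 (P.le_trans h3 h6)
    exact gl_mono (isOrd_mc hi) ((g3.1.2.2.1 r g1 h4 r' g2 h2).2 h3) (P.le_refl k3) k1 k4 k2 k5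
  have hL : ∀ D : M → M → M → Prop,
      (Dfp fun γ : ((E0 M × M) × M) × M => D γ.1.1.2 γ.1.2 γ.2) →
      A.aa fun s => ∀ r ∈ s, ∀ ξ ∈ s, r ∈ P.PP i → ξ ∈ l1 → P.le r p0 →
        (IST.op r ξ ∈ EE D ↔ D (P.gl (mc s i) (mc s r) (mp s)) (s ∩ l1) ξ) := by
    intro D hD
    have dd : ∀ {Δ : Type} [IsCtx Δ M] {u v w : Δ → M} [Dff u] [Dff v] [Dff w],
      Dfp fun δ => D (u δ) (v δ) (w δ) := fun {_ _ _ _ _ _ _ _} => Dfp.use3 hD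
    refine aa_all.2 fun r _ => aa_all.2 fun ξ _ => ?_
    by_cases h1 : r ∈ P.PP i ∧ ξ ∈ l1 ∧ P.le r p0
    · have h2 := hE D hD r ξ
      by_cases h3 : A.aa fun s => D (P.gl (mc s i) (mc s r) (mp s)) (s ∩ l1) ξ
      · refine aa_mono h3 fun s _ h4 _ _ _ => ?_
        exact iff_of_true (h2.2 ⟨h1.1, h1.2.1, h1.2.2, h3⟩) h4
      · refine aa_mono (aa_not.2 h3) fun s _ h4 _ _ _ => ?_
        exact iff_of_false (fun h5 => h3 (h2.1 h5).2.2.2) h4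
    · exact aa_of_all fun s _ k1 k2 k3 => absurd ⟨k1, k2, k3⟩ h1
  -- density
  have hDn : ∀ ξ ∈ l1, ∀ r ∈ P.PP i, P.le r p0 → ∃ r' ∈ P.PP i, P.le r' r ∧
      (IST.op r' ξ ∈ EE Dp ∨ IST.op r' ξ ∈ EE Dn) := by
    intro ξ hξ r hr hle
    have h1 : A.aa fun s => ∃ r' ∈ s, (r' ∈ P.PP i ∧ P.le r' r ∧
        (Dp (P.gl (mc s i) (mc s r') (mp s)) (s ∩ l1) ξ ∨
          Dn (P.gl (mc s i) (mc s r') (mp s)) (s ∩ l1) ξ)) := by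
      refine aa_mono (aa_and (aa_and (aa_fine (A.trans_Z hr H.ppi)) (aa_fine (l1η ξ hξ))) ty)
        fun s hs h2 => ?_
      obtain ⟨⟨g1, g2⟩, g3⟩ := h2
      obtain ⟨k1, k2, k3⟩ := ty1 s g3 r g1 hr hle
      rw [g3.2.2.1.2.2.1] at k2
      obtain ⟨r', hr', h4, h5⟩ := g3.2.2.1.2.2.2 ξ (mem_inter.2 ⟨g2, hξ⟩) _ k1 k2
      obtain ⟨r'', h6, h7, rfl⟩ := g3.1.1.2.2 r' hr'
      exact ⟨r'', h6, h7, (g3.1.2.2.1 r g1 hr r'' h6 h7).1 h4, h5⟩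
    obtain ⟨r', -, h2⟩ := (aa_exists (χ := fun r' s => (r' ∈ P.PP i ∧ P.le r' r ∧
        (Dp (P.gl (mc s i) (mc s r') (mp s)) (s ∩ l1) ξ ∨
          Dn (P.gl (mc s i) (mc s r') (mp s)) (s ∩ l1) ξ)))).1 h1
    obtain ⟨s, -, h3, h4, -⟩ := aa_ex h2
    have h5 : A.aa fun s => (Dp (P.gl (mc s i) (mc s r') (mp s)) (s ∩ l1) ξ ∨
          Dn (P.gl (mc s i) (mc s r') (mp s)) (s ∩ l1) ξ) := aa_mono h2 fun s _ h => h.2.2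
    refine ⟨r', h3, h4, ?_⟩
    refine (A.nfu.aa_or_iff.1 h5).imp (fun h6 => ?_) fun h6 => ?_
    · exact (hE Dp hp r' ξ).2 ⟨h3, hξ, P.le_trans h4 hle, h6⟩
    · exact (hE Dn hn r' ξ).2 ⟨h3, hξ, P.le_trans h4 hle, h6⟩
  have hsub : ∀ D : M → M → M → Prop,
      (Dfp fun γ : ((E0 M × M) × M) × M => D γ.1.1.2 γ.1.2 γ.2) → ∀ t, t ∈ EE D →
      ∃ r ∈ P.PP i, ∃ ξ ∈ l1, t = IST.op r ξ := by
    intro D hD t ht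
    have dd : ∀ {Δ : Type} [IsCtx Δ M] {u v w : Δ → M} [Dff u] [Dff v] [Dff w],
      Dfp fun δ => D (u δ) (v δ) (w δ) := fun {_ _ _ _ _ _ _ _} => Dfp.use3 hD
    rw [hEE] at ht
    exact mem_prod.1 (mem_sep.1 ht).1
  refine ⟨EE Dp, EE Dn, fun t ht => ?_, fun t ht => ?_, hO Dp hp op, hO Dn hn on, ?_, hDn, ?_⟩
  · obtain ⟨r, h1, ξ, h2, rfl⟩ := hsub Dp hp t ht
    exact ⟨r, h1, ξ, h2, rfl, ((hE Dp hp r ξ).1 ht).2.2.1⟩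
  · obtain ⟨r, h1, ξ, h2, rfl⟩ := hsub Dn hn t ht
    exact ⟨r, h1, ξ, h2, rfl, ((hE Dn hn r ξ).1 ht).2.2.1⟩
  · intro r ξ h1 h2
    have h3 := ((hE Dp hp r ξ).1 h1).2.2.2
    have h4 := ((hE Dn hn r ξ).1 h2).2.2.2
    obtain ⟨s, -, h5, h6⟩ := aa_ex (aa_and h3 h4)
    exact opn _ _ _ h5 h6
  intro R hR hRd p hpi hpp
  have drr : ∀ {Δ : Type} [IsCtx Δ M] {u v w : Δ → M} [Dff u] [Dff v] [Dff w],
    Dfp fun δ => R (u δ) (v δ) (w δ) := fun {_ _ _ _ _ _ _ _} => Dfp.use3 hR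
  have h2 : A.aa fun s => ∀ r ∈ s, ∀ ξ ∈ s, r ∈ P.PP i → ξ ∈ l1 → P.le r p0 →
      ∃ r' ∈ s, r' ∈ P.PP i ∧ P.le r' r ∧ (IST.op r' ξ ∈ EE Dp ∨ IST.op r' ξ ∈ EE Dn) := by
    refine aa_all.2 fun r _ => aa_all.2 fun ξ _ => ?_
    by_cases h1 : r ∈ P.PP i ∧ ξ ∈ l1 ∧ P.le r p0
    · obtain ⟨r', h3, h4, h5⟩ := hDn ξ h1.2.1 r h1.1 h1.2.2
      exact aa_mono (aa_fine (A.trans_Z h3 H.ppi)) fun s _ h6 _ _ _ => ⟨r', h6, h3, h4, h5⟩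
    · exact aa_of_all fun s _ k1 k2 k3 => absurd ⟨k1, k2, k3⟩ h1
  have h3 : A.aa fun s => ∀ n ∈ s, ∀ ξ ∈ s, ∀ r ∈ s, n ∈ (om : M) → r ∈ P.PP i → ξ ∈ l1 →
      P.le r p0 → ∃ r' ∈ s, ∃ v ∈ s, r' ∈ P.PP i ∧ P.le r' r ∧ v ∈ l1 ∧ R r' (IST.op n ξ) v := by
    refine aa_all.2 fun n _ => aa_all.2 fun ξ _ => aa_all.2 fun r _ => ?_
    by_cases h1 : n ∈ (om : M) ∧ r ∈ P.PP i ∧ ξ ∈ l1 ∧ P.le r p0
    · obtain ⟨r', h3, h4, v, h5, h6⟩ := hRd n h1.1 ξ h1.2.2.1 r h1.2.1 h1.2.2.2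
      exact aa_mono (aa_and (aa_fine (A.trans_Z h3 H.ppi)) (aa_fine (l1η v h5)))
        fun s _ h7 _ _ _ _ => ⟨r', h7.1, v, h7.2, h3, h4, h5, h6⟩
    · exact aa_of_all fun s _ k1 k2 k3 k4 => absurd ⟨k1, k2, k3, k4⟩ h1
  obtain ⟨s, hsD, ⟨⟨ts, l2⟩, l3, l4⟩, hps, l5⟩ :=
    aa_ex (aa_and (aa_and (aa_and ty h2) (aa_and h3 (hL Dp hp)))
      (aa_and (aa_fine (A.trans_Z hpi H.ppi)) (hL Dn hn)))
  obtain ⟨k1, k2, k3⟩ := ty1 s ts p hps hpi hpp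
  have hk : IsOrd (mc s i) := isOrd_mc hi
  obtain ⟨t1, t2, t3, t4, t5, t6⟩ := ts
  have hq : P.gl (mc s i) (mc s p) (mp s) ∈ P.PP i := P.gl_mem hk hi t1.1.1 t3.1 k1 k2
  have c0 := ((P.mem_PP hk).1 (t1.2.1 p0 t2 hp0)).1
  have cm := ((P.mem_PP hi).1 t1.2.2.2.1.1).1
  have mo : P.le (mc s p0) (P.rs (mc s i) (ms s)) := by
    rw [t1.2.2.2.1.2]; exact P.le_one c0
  have mm : P.le (mp s) (ms s) := P.le_trans t3.2.1 (P.gl_le hk cm (t1.2.1 p0 t2 hp0) mo)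
  have below : ∀ q', P.le q' (P.gl (mc s i) (mc s p) (mp s)) →
      P.le q' (mp s) ∧ P.le (P.rs (mc s i) q') (mc s p) := by
    intro q' hq'
    refine ⟨P.le_trans hq' (P.gl_le hk k3 k1 k2), ?_⟩
    have := P.rs_mono hk hq'
    rwa [P.rs_gl hk k3 k1 k2] at this
  -- refinements
  have refi : ∀ q' ∈ P.PP i, P.le q' (P.gl (mc s i) (mc s p) (mp s)) →
      ∃ r0 ∈ s, r0 ∈ P.PP i ∧ P.le r0 p0 ∧ ∀ r ∈ s, r ∈ P.PP i → P.le r r0 →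
        P.gl (mc s i) (mc s r) q' ∈ P.PP i ∧ P.le (P.gl (mc s i) (mc s r) q') q' ∧
        P.le (P.gl (mc s i) (mc s r) q') r ∧
        P.le (P.gl (mc s i) (mc s r) q') (P.gl (mc s i) (mc s r) (mp s)) := by
    intro q' hq1 hq2
    obtain ⟨b1, b2⟩ := below q' hq2
    have cq := ((P.mem_PP hi).1 hq1).1
    obtain ⟨r0, h4, h5, h6⟩ := t1.1.2.2 _ (P.rs_mem hk cq)
    rw [h6] at b2
    have h7 : P.le r0 p0 := P.le_trans ((t1.2.2.1 p hps hpi r0 h4 h5).1 b2) hpp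
    refine ⟨r0, h4, h5, h7, fun r hr hr' hle => ?_⟩
    have j1 := t1.2.1 r hr hr'
    have j2 : P.le (mc s r) (P.rs (mc s i) q') := by
      rw [h6]; exact (t1.2.2.1 r0 h4 h5 r hr hr').2 hle
    have j3 := P.gl_le hk cq j1 j2
    have j4 := P.gl_le_left hk cq j1 j2
    have j5 := P.rs_gl hk cq j1 j2
    have j6 := ty1 s ⟨t1, t2, t3, t4, t5, t6⟩ r hr hr' (P.le_trans hle h7)
    refine ⟨P.gl_mem hk hi t1.1.1 hq1 j1 j2, j3, ?_, ?_⟩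
    · refine t1.mc_le hi hr hr' (P.le_trans j3 (P.le_trans b1 mm)) ?_
      rw [j5]
      exact P.le_refl ((P.mem_PP hk).1 j1).1
    · exact P.le_gl hk k3 j1 j6.2.1 j4 (P.le_trans j3 b1)
  refine ⟨s ∩ l1, t6, fun x hx => mem_inter.2 ⟨t4 x hx, ?_⟩, fun x hx => (mem_inter.1 hx).2, ?_,
    _, hq, ?_, ?_, ?_⟩
  · exact kl x (H.ordk.trans hx H.omk)
  · have : s ∩ l1 ∩ A.κ = s ∩ A.κ := by
      apply IST.ext
      intro x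
      rw [mem_inter, mem_inter, mem_inter]
      exact ⟨fun h => ⟨h.1.1, h.2⟩, fun h => ⟨⟨h.1, kl x h.2⟩, h.2⟩⟩
    rw [this]
    exact t5
  · obtain ⟨b1, b2⟩ := below _ (P.le_refl ((P.mem_PP hi).1 hq).1)
    exact t1.mc_le hi hps hpi (P.le_trans b1 mm) b2
  · intro ξ hξ q' hq1 hq2
    obtain ⟨x1, x2⟩ := mem_inter.1 hξ
    obtain ⟨r0, e1, e2, e3, e4⟩ := refi q' hq1 hq2
    obtain ⟨r, f1, f2, f3, f4⟩ := l2 r0 e1 ξ x1 e2 x2 e3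
    obtain ⟨g1, g2, g3, g4⟩ := e4 r f1 f2 f3
    refine ⟨_, g1, g2, f4.imp (fun f5 => ⟨r, f5, g3, ?_⟩) fun f5 => ⟨r, f5, g3, ?_⟩⟩
    · exact op _ _ _ _ ((l4 r f1 ξ x1 f2 x2 (P.le_trans f3 e3)).1 f5) g4
    · exact on _ _ _ _ ((l5 r f1 ξ x1 f2 x2 (P.le_trans f3 e3)).1 f5) g4
  · intro n hn' ξ hξ q' hq1 hq2
    obtain ⟨x1, x2⟩ := mem_inter.1 hξ
    obtain ⟨r0, e1, e2, e3, e4⟩ := refi q' hq1 hq2
    obtain ⟨r, f1, v, f2, f3, f4, f5, f6⟩ := l3 n (t4 n hn') ξ x1 r0 e1 hn' e2 x2 e3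
    obtain ⟨g1, g2, g3, g4⟩ := e4 r f1 f3 f4
    exact ⟨_, g1, g2, r, f3, g3, v, mem_inter.2 ⟨f2, f5⟩, f6⟩

end Rfl

end Pool.Agent.IST
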