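import Pool.Agent.SC.Inacc
import Pool.Agent.SC.Fin
import Pool.Agent.IST.Laver

/-!
# Almost all collapses reflect a level of the iteration
-/

set_option synthInstance.maxSize 100000

namespace Pool.Agent.IST

open Pool.Agent.BVM CMap Amp

section

variable {M : Type} [SetModel M] [BitC M] {Γ : Type} [IsCtx Γ M]

omit [BitC M] in
/-- the collapse preserves pairs -/
theorem aa_mc_op {A : Amp M} : A.aa fun s => ∀ x ∈ s, ∀ y ∈ s, op x y ∈ s ∧
    mc s (op x y) = op (mc s x) (mc s y) := by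
  refine aa_all.2 fun x hx => ?_
  refine aa_all.2 fun y hy => ?_
  exact aa_and (aa_fine (op_mem_Vr A.lim hx hy)) (aa_mono (Lf.ap2 (A := A) (F := fun x y => op x y)
    hx hy) fun s _ h => h.symm)

/-- reflection of a level of the iteration -/
theorem aa_rf4 {A : Amp M} {i : M} (hi : IsOrd i) (hκi : A.κ ⊆ i) (hV : CP i ∈ Vr A.η)
    (hVL : CL i ∈ Vr A.η) (h1 : A.aa fun s => mc s (CP i) = CP (mc s i))
    (h2 : A.aa fun s => mc s (CL i) = CL (mc s i)) (h3 : A.aa fun s => mc s i ∈ A.κ) :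
    A.aa fun s => Rf4 A.κ i s := by
  have hr := reg_κ (A := A)
  have hs := slim_κ (A := A)
  have hκo := A.ord_κ
  have k1 : A.aa fun s => ∀ x ∈ s, rst A.κ x ∈ s := by
    refine aa_all.2 fun x hx => aa_fine (mem_Vr_of_sub hx rst_sub)
  refine aa_mono (A := A) (aa_and (aa_and (aa_and h1 h2) (aa_and h3 k1)) (aa_and (aa_and
    (aa_fine hV) (aa_fine hVL)) (aa_and (aa_and aa_extl aa_mc_op)
      (aa_and aa_inter_Vκ aa_mc_self)))) fun s hsD
    ⟨⟨⟨a1, a2⟩, a3, a4⟩, ⟨a5, a6⟩, ⟨a7, a8⟩, a9, a10⟩ => ?_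
  have ho : IsOrd (mc s i) := isOrd_mc hi
  have c1 : ∀ r ∈ s, r ∈ CP i → mc s r ∈ CP (mc s i) := fun r hr hr' => by
    rw [← a1]
    exact mc_mem_mc hr hr'
  refine ⟨infCard_κ, hi, hκi, hκo.sub_of_mem a3, c1, fun r hr => ?_, fun r hr hr' r' hs' hs'' => ?_,
    fun r hrs hri x hx hxκ => ?_, ?_⟩
  · rw [← a1] at hr
    exact mem_mc.1 hr
  · have e1 : cle r' r ↔ op r' r ∈ CL i := by
      rw [mem_CL hi]
      exact ⟨fun h => ⟨hs'', hr', h⟩, fun h => h.2.2⟩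
    have e2 : cle (mc s r') (mc s r) ↔ op (mc s r') (mc s r) ∈ CL (mc s i) := by
      rw [mem_CL ho]
      exact ⟨fun h => ⟨c1 r' hs' hs'', c1 r hr hr', h⟩, fun h => h.2.2⟩
    obtain ⟨e3, e4⟩ := a8 r' hs' r hr
    rw [e1, e2, ← e4, ← a2]
    exact mc_mem_iff a7 e3 a6
  · have d1 := (mem_CP hi).1 hri
    have d2 : rst A.κ r ∈ Vr (s ∩ A.κ) := by
      rw [← a9, mem_inter]
      exact ⟨a4 r hrs, CP_sub_inacc hr hs A.om_mem _ (rst_mem hκo d1.1)⟩
    have d3 : op x (ap r x) ∈ rst A.κ r := op_mem_rst.2 ⟨d1.1.1.op_ap_mem hx, hxκ⟩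
    have d4 : op x (ap r x) ∈ Vr (s ∩ A.κ) := isTrans_Vr _ _ d2 _ d3
    have d5 : op x (ap r x) ∈ s := by
      have := d4
      rw [← a9, mem_inter] at this
      exact this.1
    have d6 : op x (ap r x) ∈ mc s r := by
      have := mc_mem_mc d5 (rst_sub _ d3)
      rwa [a10 _ d4] at this
    have d7 := ((mem_CP ho).1 (c1 r hrs hri)).1.1
    exact (d7.op_mem_iff).1 d6
  · exact (isOrd_card _).mem_of_sub_of_mem hκo
      (card_sub_iff.2 (leq_of_sub fun y hy => (mem_inter.1 hy).1)) (mem_D.1 hsD).2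

omit [BitC M] in
/-- the trace of an ordinal on `s` -/
theorem card_inter_ord {A : Amp M} {l : M} (hl : IsOrd l) (_hlV : l ∈ Vr A.η) :
    A.aa fun s => card (s ∩ l) ⊆ mc s l := by
  refine aa_mono aa_extl fun s _ h => ?_
  refine Sub.trans (card_sub_iff.2 ?_) (card_sub_self (isOrd_mc hl))
  refine leq_of (fun x => mc s x) (fun x hx => ?_) fun x hx y hy e => ?_
  · exact mc_mem_mc (mem_inter.1 hx).1 (mem_inter.1 hx).2
  · exact mc_inj h (mem_inter.1 hx).1 (mem_inter.1 hy).1 e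

end

end Pool.Agent.IST
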