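import Pool.Agent.LP.Cnd
import Pool.Agent.IST.LosF

/-!
# The iteration and the collapses: the definitions satisfy the theorem of Łoś

The bits are taken from a set `c` (`BitC.ofSet c`), and all notions are considered as functions
of `c` and their arguments.
-/

set_option synthInstance.maxSize 100000

namespace Pool.Agent.IST

open Pool.Agent.BVM CMap Amp

section

variable {M : Type} [SetModel M]

variable {Γ : Type} [IsCtx Γ M] {c f g h k : Γ → M} [Dff c] [Dff f] [Dff g] [Dff h] [Dff k]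

/-! ### definability -/

instance bit1_cdfp : Dfp fun γ => @Bit1 M _ (BitC.ofSet (c γ)) (f γ) :=
  inferInstanceAs (Dfp fun γ => ∃ l, LimIx l ∧ f γ = sc l ∧ l ∈ c γ)

open Classical in
instance nxtF_cdff : Dff fun γ => @nxtF M _ (BitC.ofSet (c γ)) (f γ) (g γ) := by
  unfold nxtF; infer_instance

open Classical in
instance alpG_cdff : Dff fun γ => @alpG M _ (BitC.ofSet (c γ)) (f γ) (g γ) := by
  unfold alpG; infer_instance

instance alp_cdff : Dff fun γ => @alp M _ (BitC.ofSet (c γ)) (f γ) := by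
  unfold alp; infer_instance

instance dlt_cdff : Dff fun γ => @dlt M _ (BitC.ofSet (c γ)) (f γ) := by
  unfold dlt; infer_instance

instance tau_cdff : Dff fun γ => @tau M _ (BitC.ofSet (c γ)) (f γ) := by
  unfold tau; infer_instance

open Classical in
instance DD_cdff : Dff fun γ => @DD M _ (BitC.ofSet (c γ)) (f γ) := by
  unfold DD; infer_instance

instance SR_cdfp : Dfp fun γ => @SR M _ (BitC.ofSet (c γ)) (f γ) := by
  unfold SR; infer_instance

instance XX_cdff : Dff fun γ => @XX M _ (BitC.ofSet (c γ)) (f γ) := by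
  unfold XX; infer_instance

instance NmF_cdff : Dff fun γ => @NmF M _ (BitC.ofSet (c γ)) (f γ) (g γ) := by
  unfold NmF; infer_instance

instance PPF_cdff : Dff fun γ => @PPF M _ (BitC.ofSet (c γ)) (f γ) (g γ) := by
  unfold PPF; infer_instance

instance LLF_cdff : Dff fun γ => @LLF M _ (BitC.ofSet (c γ)) (f γ) (g γ) := by
  unfold LLF; infer_instance

instance RR_cdff : Dff fun γ => @RR M _ (BitC.ofSet (c γ)) (f γ) := by
  unfold RR; infer_instance

instance CP_cdff : Dff fun γ => @CP M _ (BitC.ofSet (c γ)) (f γ) := by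
  unfold CP; infer_instance

instance CL_cdff : Dff fun γ => @CL M _ (BitC.ofSet (c γ)) (f γ) := by
  unfold CL; infer_instance

instance Nm_cdff : Dff fun γ => @Nm M _ (BitC.ofSet (c γ)) (f γ) := by
  unfold Nm; infer_instance

/-! ### notions without bits -/

variable {A : Amp M} [CMap Γ]

instance LimIx.lp [Lf A f] : Lp A fun γ => LimIx (f γ) := by
  unfold LimIx; infer_instance

open Classical in
instance tauF.lf [ClCard A] [Lf A f] [Lf A g] [Lf A h] :
    Lf A fun γ => tauF (f γ) (g γ) (h γ) := by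
  unfold tauF; infer_instance

instance rst.lf [Lf A f] [Lf A g] : Lf A fun γ => rst (f γ) (g γ) := by
  unfold rst; infer_instance

theorem right_mem_of_op {p q L : M} (h : op p q ∈ L) : q ∈ bigU (bigU L) :=
  mem_bigU_bigU_right h

theorem left_mem_of_op {p q L : M} (h : op p q ∈ L) : p ∈ bigU (bigU L) :=
  mem_bigU_bigU_left h

/-- bounded form -/
theorem feq_bd {L r n n' : M} : FEq L r n n' ↔ ∀ r', r' ∈ bigU (bigU L) → op r' r ∈ L →
    ∃ r'', r'' ∈ bigU (bigU L) ∧ op r'' r' ∈ L ∧ ∃ v, v ∈ bigU (bigU n) ∧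
      ∃ q, q ∈ bigU (bigU n) ∧ ∃ q', q' ∈ bigU (bigU n') ∧
        op q v ∈ n ∧ op q' v ∈ n' ∧ op r'' q ∈ L ∧ op r'' q' ∈ L := by
  unfold FEq
  refine ⟨fun h r' _ h2 => ?_, fun h r' h2 => ?_⟩
  · obtain ⟨r'', h3, v, q, q', h4, h5, h6, h7⟩ := h r' h2
    exact ⟨r'', left_mem_of_op h3, h3, v, right_mem_of_op h4, q, left_mem_of_op h4, q',
      left_mem_of_op h5, h4, h5, h6, h7⟩
  · obtain ⟨r'', -, h3, v, -, q, -, q', -, h4⟩ := h r' (left_mem_of_op h2) h2
    exact ⟨r'', h3, v, q, q', h4⟩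

instance FEq.lp [Lf A f] [Lf A g] [Lf A h] [Lf A k] :
    Lp A fun γ => FEq (f γ) (g γ) (h γ) (k γ) := by
  simp only [feq_bd]; infer_instance

theorem nmOf_bd {B L t n : M} : NmOf B L t n ↔ n ⊆ prod B t ∧
    (∀ q, q ∈ bigU (bigU n) → ∀ v, v ∈ bigU (bigU n) → ∀ q', q' ∈ bigU (bigU n) →
      ∀ v', v' ∈ bigU (bigU n) → op q v ∈ n → op q' v' ∈ n →
        (∃ r, r ∈ bigU (bigU L) ∧ op r q ∈ L ∧ op r q' ∈ L) → v = v') ∧
    ∀ r, r ∈ B → ∃ r', r' ∈ bigU (bigU L) ∧ op r' r ∈ L ∧ ∃ q, q ∈ bigU (bigU n) ∧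
      ∃ v, v ∈ bigU (bigU n) ∧ op q v ∈ n ∧ op r' q ∈ L := by
  unfold NmOf
  refine and_congr Iff.rfl (and_congr ?_ ?_)
  · constructor
    · rintro h q - v - q' - v' - h1 h2 ⟨r, -, h3⟩
      exact h q v q' v' h1 h2 ⟨r, h3⟩
    · rintro h q v q' v' h1 h2 ⟨r, h3⟩
      exact h q (left_mem_of_op h1) v (right_mem_of_op h1) q' (left_mem_of_op h2) v'
        (right_mem_of_op h2) h1 h2 ⟨r, left_mem_of_op h3.1, h3⟩
  · constructor
    · intro h r hr
      obtain ⟨r', h1, q, v, h2, h3⟩ := h r hr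
      exact ⟨r', left_mem_of_op h1, h1, q, left_mem_of_op h2, v, right_mem_of_op h2, h2, h3⟩
    · intro h r hr
      obtain ⟨r', -, h1, q, -, v, -, h2⟩ := h r hr
      exact ⟨r', h1, q, v, h2⟩

instance NmOf.lp [Lf A f] [Lf A g] [Lf A h] [Lf A k] :
    Lp A fun γ => NmOf (f γ) (g γ) (h γ) (k γ) := by
  simp only [nmOf_bd]; infer_instance

instance NmS.lf [Lf A f] [Lf A g] [Lf A h] : Lf A fun γ => NmS (f γ) (g γ) (h γ) := by
  unfold NmS; infer_instance

/-! ### notions with bits -/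

instance bit1_clp [Lf A c] [Lf A f] : Lp A fun γ => @Bit1 M _ (BitC.ofSet (c γ)) (f γ) :=
  Lp.ex_of (P := fun γ l => LimIx l ∧ f γ = sc l ∧ l ∈ c γ) (fun γ => c γ) fun _ _ h => h.2.2

open Classical in
instance nxtF_clf [ClCard A] [Lf A c] [Lf A f] [Lf A g] :
    Lf A fun γ => @nxtF M _ (BitC.ofSet (c γ)) (f γ) (g γ) := by
  unfold nxtF; infer_instance

open Classical in
instance alpG_clf [ClCard A] [Lf A c] [Lf A f] [Lf A g] :
    Lf A fun γ => @alpG M _ (BitC.ofSet (c γ)) (f γ) (g γ) := by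
  unfold alpG; infer_instance

/-- `V_η` is closed under the recursions -/
class ClIt (A : Amp M) : Prop extends ClCard A where
  alp : ∀ c ∈ Vr A.η, ∀ x ∈ Vr A.η, lam x (fun y => @IST.alp M _ (BitC.ofSet c) y) ∈ Vr A.η
  xx : ∀ c ∈ Vr A.η, ∀ x ∈ Vr A.η,
    img x (fun i => IST.prod (sing i) (@DD M _ (BitC.ofSet c) i)) ∈ Vr A.η
  nm : ∀ c ∈ Vr A.η, ∀ x ∈ Vr A.η, ∀ f ∈ Vr A.η,
    img x (fun i => @NmF M _ (BitC.ofSet c) f i) ∈ Vr A.η
  rr : ∀ c ∈ Vr A.η, ∀ x ∈ Vr A.η, lam x (fun y => @RR M _ (BitC.ofSet c) y) ∈ Vr A.η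

variable [hA : ClIt A]

instance alp_clf [hc : Lf A c] [Lf A f] : Lf A fun γ => @alp M _ (BitC.ofSet (c γ)) (f γ) := by
  unfold alp
  exact erec.lf (A := A) (G := fun γ x f => @alpG M _ (BitC.ofSet (c γ)) x f)
    fun γ hγ x hx => hA.alp _ (hc.mem γ hγ) x hx

instance dlt_cl [hc : Lf A c] [hf : Lf A f] :
    Cl A fun γ => img (f γ) fun j => @alp M _ (BitC.ofSet (c γ)) j :=
  ⟨fun γ hγ => by
    have := ran_mem_Vr A.lim (hA.alp _ (hc.mem γ hγ) _ (hf.mem γ hγ))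
    rwa [ran_lam] at this⟩

instance dlt_clf [hc : Lf A c] [Lf A f] : Lf A fun γ => @dlt M _ (BitC.ofSet (c γ)) (f γ) := by
  unfold dlt; infer_instance

instance tau_clf [hc : Lf A c] [Lf A f] : Lf A fun γ => @tau M _ (BitC.ofSet (c γ)) (f γ) := by
  unfold tau; infer_instance

open Classical in
instance DD_clf [hc : Lf A c] [Lf A f] : Lf A fun γ => @DD M _ (BitC.ofSet (c γ)) (f γ) := by
  unfold DD; infer_instance

instance SR_clp [hc : Lf A c] [Lf A f] : Lp A fun γ => @SR M _ (BitC.ofSet (c γ)) (f γ) := by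
  unfold SR
  refine Lp.all_of (fun γ => sc (card (dom (f γ)))) fun γ d hd h1 _ => ?_
  have h2 : card (dom (f γ)) ∈ d := by
    have h3 := isOrd_card (dom (f γ))
    rcases h1.isOrd.cmp h3 with h4 | h4 | h4
    · exact absurd (mem_sc.2 (Or.inl h4)) hd
    · exact absurd (mem_sc.2 (Or.inr h4)) hd
    · exact h4
  exact (isOrd_card _).mem_of_sub_of_mem h1.isOrd
    (card_sub_iff.2 (leq_of_sub fun z hz => (mem_sep.1 hz).1)) h2

instance XX_cl [hc : Lf A c] [hf : Lf A f] :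
    Cl A fun γ => img (f γ) fun i => prod (sing i) (@DD M _ (BitC.ofSet (c γ)) i) :=
  ⟨fun γ hγ => hA.xx _ (hc.mem γ hγ) _ (hf.mem γ hγ)⟩

instance XX_clf [hc : Lf A c] [Lf A f] : Lf A fun γ => @XX M _ (BitC.ofSet (c γ)) (f γ) := by
  unfold XX; infer_instance

instance NmF_clf [hc : Lf A c] [Lf A f] [Lf A g] :
    Lf A fun γ => @NmF M _ (BitC.ofSet (c γ)) (f γ) (g γ) := by
  unfold NmF; infer_instance

instance NmF_cl [hc : Lf A c] [hf : Lf A f] [hg : Lf A g] :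
    Cl A fun γ => img (f γ) fun i => @NmF M _ (BitC.ofSet (c γ)) (g γ) i :=
  ⟨fun γ hγ => hA.nm _ (hc.mem γ hγ) _ (hf.mem γ hγ) _ (hg.mem γ hγ)⟩

instance PPF_clf [hc : Lf A c] [Lf A f] [Lf A g] :
    Lf A fun γ => @PPF M _ (BitC.ofSet (c γ)) (f γ) (g γ) := by
  unfold PPF; infer_instance

instance LLF_clf [hc : Lf A c] [Lf A f] [Lf A g] :
    Lf A fun γ => @LLF M _ (BitC.ofSet (c γ)) (f γ) (g γ) := by
  unfold LLF; infer_instance

instance RR_clf [hc : Lf A c] [Lf A f] : Lf A fun γ => @RR M _ (BitC.ofSet (c γ)) (f γ) := by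
  unfold RR
  exact erec.lf (A := A) (G := fun γ k f => op (@PPF M _ (BitC.ofSet (c γ)) k f)
    (@LLF M _ (BitC.ofSet (c γ)) k f)) fun γ hγ x hx => hA.rr _ (hc.mem γ hγ) x hx

instance CP_clf [hc : Lf A c] [Lf A f] : Lf A fun γ => @CP M _ (BitC.ofSet (c γ)) (f γ) := by
  unfold CP; infer_instance

instance CL_clf [hc : Lf A c] [Lf A f] : Lf A fun γ => @CL M _ (BitC.ofSet (c γ)) (f γ) := by
  unfold CL; infer_instance

instance Nm_clf [hc : Lf A c] [Lf A f] : Lf A fun γ => @Nm M _ (BitC.ofSet (c γ)) (f γ) := by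
  unfold Nm; infer_instance

end

end Pool.Agent.IST
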