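import Pool.Agent.SC.ReflB
import Pool.Agent.SC.Bits
import Pool.Agent.SC.Refl2

/-!
# Supercompactness: the reflection hypothesis `H64` from the bits below `κ`
-/

set_option synthInstance.maxSize 100000

namespace Pool.Agent.IST

open Pool.Agent.BVM CMap

section

variable {M : Type} [SetModel M]

/-- small subsets stay small -/
theorem BitH.aa_card [B0 : BitC M] {A : Amp M} {i c B : M} (H : BitH A i c B) [ClIt A] {l1 : M}
    (hl : l1 ∈ Vr A.η) (hc : card l1 ∈ alp i) : A.aa fun s => card (s ∩ l1) ∈ alp (mc s i) := by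
  obtain ⟨h1, h2⟩ := H.refl_alp H.ord (Sub.refl i) H.mem
  have h3 : card l1 ∈ Vr A.η := ClCard.mem _ hl
  have h4 := (Amp.los_mem h3 h1).1 hc
  have h5 := Lf.ap1 (A := A) (F := fun x => card x) hl
  refine Amp.aa_mono (Amp.aa_and (Amp.aa_and h2 h4) (Amp.aa_and h5 Amp.aa_extl))
    fun s _ ⟨⟨e1, e2⟩, e3, e4⟩ => ?_
  rw [e1, ← e3] at e2
  have ho : IsOrd (alp (mc s i)) := isOrd_alp (isOrd_mc H.ord)
  refine (isOrd_card _).mem_of_sub_of_mem ho (card_sub_iff.2 ?_) e2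
  refine leq_of (fun x => mc s x) (fun x hx => ?_) fun x hx y hy e => ?_
  · rw [mem_inter] at hx
    exact mc_mem_mc hx.1 hx.2
  · rw [mem_inter] at hx hy
    exact mc_inj e4 hx.1 hy.1 e

/-- `H64` from reflection of the iteration -/
theorem h64_ofBits {κ B : M} (h1 : IsCard κ)
    (hB : ∀ th i c, IsLim th → i ∈ th → IsOrd i → κ ⊆ i → c ⊆ i →
      (∀ x ∈ κ, x ∈ c ↔ x ∈ B) → κ ∈ th →
      ∃ U, IsAmp κ th U ∧ Aa U (pws κ (Vr th)) fun s => mc s i ∈ κ ∧ mc s c = B ∩ mc s i)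
    [B0 : BitC M] (hb : ∀ l ∈ κ, LimIx l → (BitC.b l ↔ l ∈ B))
    : H64 κ := by
  intro l1 hl1 hκl
  refine ⟨l1, hl1, fun j hj hlj => ?_⟩
  have hκj : κ ⊆ j := Sub.trans hκl hlj
  obtain ⟨η, hη1, hη2, hη3⟩ := exists_clIt hj.sc
  have hjη : j ∈ η := hη1.1.trans (self_mem_sc j) hη2
  have hκη : κ ∈ η := h1.isOrd.mem_of_sub_of_mem hη1.1 hκj hjη
  have hlη : l1 ∈ η := hl1.mem_of_sub_of_mem hη1.1 hlj hjη
  set c := sep (sc j) fun l => (l ∈ κ ∧ l ∈ B) ∨ (l ∉ κ ∧ BitC.b l) with hc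
  have hcB : ∀ x ∈ κ, x ∈ c ↔ x ∈ B := by
    intro x hx
    rw [hc, mem_sep]
    constructor
    · rintro ⟨-, h | h⟩
      · exact h.2
      · exact absurd hx h.1
    · intro h
      exact ⟨mem_sc.2 (Or.inl (hκj x hx)), Or.inl ⟨hx, h⟩⟩
  obtain ⟨U, hU, hU'⟩ := hB η (sc j) c hη1 hη2 hj.sc
    (fun x hx => mem_sc.2 (Or.inl (hκj x hx))) (fun x hx => (mem_sep.1 hx).1) hcB hκη
  let A : Amp M := ⟨κ, η, U, hU⟩
  have hcl : ClIt A := hη3 A rfl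
  have H : BitH A (sc j) c B := by
    refine ⟨hj.sc, (ord_mem_Vr_iff hj.sc hη1.1).2 hη2,
      fun x hx => mem_sc.2 (Or.inl (hκj x hx)), fun x hx => (mem_sep.1 hx).1, ?_, hb, hU'⟩
    intro l hl hl'
    change BitC.b l ↔ l ∈ c
    rw [hc, mem_sep]
    by_cases h : l ∈ κ
    · rw [hb l h hl']
      exact ⟨fun h' => ⟨hl, Or.inl ⟨h, h'⟩⟩, fun h' => h'.2.elim (fun h => h.2)
        fun h3 => absurd h h3.1⟩
    · exact ⟨fun h' => ⟨hl, Or.inr ⟨h, h'⟩⟩, fun h' => h'.2.elim (fun h3 => absurd h3.1 h)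
        fun h3 => h3.2⟩
  have hlm : l1 ∈ Vr A.η := (ord_mem_Vr_iff hl1 hη1.1).2 hlη
  refine ⟨A, rfl, H.mem, (H.refl_CP H.ord (Sub.refl _) H.mem).1,
    fun x hx => A.trans_Z hx hlm, ?_⟩
  have h5 : card l1 ∈ alp (sc j) := by
    have h6 : l1 ⊆ alp j := Sub.trans hlj (self_sub_alp hj)
    exact (isOrd_card l1).mem_of_sub_of_mem (isOrd_alp hj.sc)
      (Sub.trans (card_sub_self hl1) h6) (alp_mem_alp hj.sc (self_mem_sc j))
  have h7 := H.refl_CP H.ord (Sub.refl _) H.mem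
  have h8 := H.refl_CL H.ord (Sub.refl _) H.mem
  exact Amp.aa_and (aa_rf4 H.ord H.sub h7.1 h8.1 h7.2 h8.2
    (Amp.aa_mono H.aa fun _ _ h => h.1)) (H.aa_card hlm h5)

end

/-- **the bits below a supercompact cardinal `κ`**: there is a set `B` such that `H64 κ` holds for
every class of bits which agrees with `B` on the limit indices below `κ` -/
theorem exists_h64 {M : Type} [S : SetModel M] {κ : M} (h1 : IsCard κ) (h2 : om ∈ κ)
    (h3 : ∀ l, IsOrd l → κ ⊆ l → ∃ W, Nfu κ l (pws κ l) W) :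
    ∃ B : M, ∀ (U' : M → Prop) (hU : ZFCU (S.E : M → M → Prop) U') (bc : @BitC M ⟨S.E, U', hU⟩),
      (∀ z ∈ κ, LimIx z → (@BitC.b M ⟨S.E, U', hU⟩ bc z ↔ z ∈ B)) →
        @H64 M ⟨S.E, U', hU⟩ bc κ := by
  obtain ⟨B, -, hB⟩ := exists_bits h1 h2 h3
  refine ⟨B, fun U' hU bc hb => ?_⟩
  exact @h64_ofBits M ⟨S.E, U', hU⟩ κ B h1 hB bc hb

end Pool.Agent.IST
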